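import Pool.Agent.Lib.SZW.D0

/-!
# A1 (S): the distance to the nearest integer
-/

set_option autoImplicit false

namespace Pool.Agent.SZW

theorem nn_nonneg (t : ℝ) : 0 ≤ nn t := abs_nonneg _

theorem nn_le_half (t : ℝ) : nn t ≤ 1 / 2 := abs_sub_round t

/-- `round_le` -/
theorem nn_le (t : ℝ) (k : ℤ) : nn t ≤ |t - k| := round_le t k

theorem nn_neg (t : ℝ) : nn (-t) = nn t := by
  have h1 : ∀ t : ℝ, nn (-t) ≤ nn t := by
    intro t
    have h2 := nn_le (-t) (-round t)
    have h3 : (-t) - ((-round t : ℤ) : ℝ) = -(t - (round t : ℝ)) := by push_cast; ring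
    rw [h3, abs_neg] at h2
    exact h2
  refine le_antisymm (h1 t) ?_
  have h4 := h1 (-t)
  rwa [neg_neg] at h4

theorem nn_add (s t : ℝ) : nn (s + t) ≤ nn s + nn t := by
  have h2 := nn_le (s + t) (round s + round t)
  have h3 : (s + t) - ((round s + round t : ℤ) : ℝ) = (s - (round s : ℝ)) + (t - (round t : ℝ)) := by push_cast; ring
  rw [h3] at h2
  exact h2.trans (abs_add_le _ _)

theorem nn_sub (s t : ℝ) : nn (s - t) ≤ nn s + nn t := by
  have h := nn_add s (-t)
  rwa [nn_neg, ← sub_eq_add_neg] at h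

theorem nn_int_add (t : ℝ) (k : ℤ) : nn (t + k) = nn t := by
  unfold nn
  rw [round_add_intCast]
  congr 1
  push_cast
  ring

theorem a1_small {s : ℝ} (hs : |s| ≤ 1 / 2) : nn s = |s| := by
  refine le_antisymm ?_ ?_
  · have h3 := nn_le s 0
    rwa [Int.cast_zero, sub_zero] at h3
  · by_cases h0 : round s = 0
    · unfold nn
      rw [h0, Int.cast_zero, sub_zero]
    · have h1 : (1 : ℝ) ≤ |(round s : ℝ)| := by
        have h2 : (1 : ℤ) ≤ |round s| := Int.one_le_abs h0
        have h3 : ((1 : ℤ) : ℝ) ≤ ((|round s| : ℤ) : ℝ) := by exact_mod_cast h2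
        rwa [Int.cast_one, Int.cast_abs] at h3
      have h4 : |(round s : ℝ)| ≤ |s| + |s - (round s : ℝ)| := by
        have h5 := abs_sub_abs_le_abs_sub (round s : ℝ) s
        rw [abs_sub_comm (round s : ℝ) s] at h5
        linarith
      unfold nn
      linarith

/-- multiples: for `k * nn t ≤ 1 / 2` the distance is multiplied exactly -/
theorem nn_mul (t : ℝ) (k : ℕ) (h : k * nn t ≤ 1 / 2) : nn (k * t) = k * nn t := by
  have h1 : (k : ℝ) * t = (k : ℝ) * (t - (round t : ℝ)) + (((k : ℤ) * round t : ℤ) : ℝ) := by push_cast; ring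
  have h2 : |(k : ℝ) * (t - (round t : ℝ))| = (k : ℝ) * nn t := by
    rw [abs_mul, Nat.abs_cast]
    rfl
  rw [h1, nn_int_add, ← h2]
  exact a1_small (by rw [h2]; exact h)

theorem nn_mul_le (t : ℝ) (k : ℕ) : nn (k * t) ≤ k * nn t := by
  have h1 : (k : ℝ) * t = (k : ℝ) * (t - (round t : ℝ)) + (((k : ℤ) * round t : ℤ) : ℝ) := by push_cast; ring
  have h2 : |(k : ℝ) * (t - (round t : ℝ))| = (k : ℝ) * nn t := by
    rw [abs_mul, Nat.abs_cast]
    rfl
  rw [h1, nn_int_add, ← h2]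
  have h3 := nn_le ((k : ℝ) * (t - (round t : ℝ))) 0
  rwa [Int.cast_zero, sub_zero] at h3

end Pool.Agent.SZW
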