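import Pool.Agent.Lib.SZW.D0

/-!
# A3 (S/M): two elements of a dense set with a small difference
-/

set_option autoImplicit false

namespace Pool.Agent.SZW

/-- Let `s = ⌊2 / ρ⌋ + 1`. If no two elements of `A` are in the same interval
`[k s, (k + 1) s)`, then `|A| ≤ N / s + 1 < ρ N / 2 + 1 ≤ ρ N`. (Pigeonhole for the map `n ↦ n / s`.) -/
theorem exists_gap {A : Finset ℕ} {N : ℕ} {ρ : ℝ} (hρ : 0 < ρ) (h2 : 2 ≤ ρ * N)
    (hA : ∀ n ∈ A, n < N) (hc : ρ * N ≤ A.card) :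
    ∃ n ∈ A, ∃ n' ∈ A, n < n' ∧ ((n' - n : ℕ) : ℝ) ≤ 2 / ρ := by
  obtain ⟨s, hs⟩ : ∃ s : ℕ, s = ⌊2 / ρ⌋₊ + 1 := ⟨_, rfl⟩
  have hs0 : 0 < s := by omega
  have hs1 : 2 / ρ < (s : ℝ) := by
    rw [hs]
    push_cast
    exact Nat.lt_floor_add_one _
  have hN : (0 : ℝ) < (N : ℝ) := by
    by_contra hcon
    have h3 : ρ * (N : ℝ) ≤ 0 := mul_nonpos_of_nonneg_of_nonpos hρ.le (not_lt.1 hcon)
    linarith
  have hmap : ∀ n ∈ A, n / s ∈ Finset.range (N / s + 1) := by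
    intro n hn
    rw [Finset.mem_range]
    have h4 : n / s ≤ N / s := Nat.div_le_div_right (hA n hn).le
    omega
  have hcard : (Finset.range (N / s + 1)).card < A.card := by
    rw [Finset.card_range]
    have h5 : ((N / s : ℕ) : ℝ) ≤ (N : ℝ) / (s : ℝ) := Nat.cast_div_le
    have hs0' : (0 : ℝ) < (s : ℝ) := by exact_mod_cast hs0
    have h6 : (N : ℝ) / (s : ℝ) < ρ * N / 2 := by
      rw [div_lt_iff₀ hs0']
      have h7 : 2 < (s : ℝ) * ρ := (div_lt_iff₀ hρ).1 hs1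
      nlinarith
    have h8 : (((N / s + 1 : ℕ) : ℕ) : ℝ) < (A.card : ℝ) := by
      push_cast
      linarith
    exact_mod_cast h8
  obtain ⟨x, hx, y, hy, hxy, hxy'⟩ := Finset.exists_ne_map_eq_of_card_lt_of_maps_to hcard hmap
  have key : ∀ x ∈ A, ∀ y ∈ A, x < y → x / s = y / s → ∃ n ∈ A, ∃ n' ∈ A, n < n' ∧ ((n' - n : ℕ) : ℝ) ≤ 2 / ρ := by
    intro x hx y hy hlt heq
    refine ⟨x, hx, y, hy, hlt, ?_⟩
    have h1 := Nat.div_add_mod x s
    have h2 := Nat.div_add_mod y s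
    have h3 := Nat.mod_lt x hs0
    have h4 := Nat.mod_lt y hs0
    rw [heq] at h1
    have h5 : y - x ≤ ⌊2 / ρ⌋₊ := by omega
    have h6 : ((y - x : ℕ) : ℝ) ≤ ((⌊2 / ρ⌋₊ : ℕ) : ℝ) := by exact_mod_cast h5
    exact h6.trans (Nat.floor_le (by positivity))
  rcases lt_or_gt_of_ne hxy with h | h
  · exact key x hx y hy h hxy'
  · exact key y hy x hx h hxy'.symm

end Pool.Agent.SZW
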