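import Pool.Agent.Lib.SZW.D0
import Pool.Agent.Lib.SZW.A1

/-!
# A4 (M): elements of `A` in one window
-/

set_option autoImplicit false

namespace Pool.Agent.SZW

/-- Let `η = nn (q α) > 0`, `w = ⌊1 / (2 η)⌋`. Elements `n < n'` of `A` with `n ≡ n' mod q` and
`n / q / w = n' / q / w` have `n' = n + t q` with `t < w`, so `t η ≤ 1 / 2`, and
`t η = nn (t q α) ≤ nn (n' α + β) + nn (n α + β) ≤ 2 ε`. So the elements of `A` with given
`n % q` and `n / q / w` are among `n₀, n₀ + q, ..., n₀ + ⌊2 ε / η⌋ q`, `n₀` the smallest of them. -/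
theorem fibre_card {A : Finset ℕ} {q : ℕ} {α β ε : ℝ} (hq : 1 ≤ q) (hη : 0 < nn (q * α))
    (hε : 0 ≤ ε) (hA : ∀ n ∈ A, nn (n * α + β) ≤ ε) (r k : ℕ) :
    ((A.filter fun n => n % q = r ∧ n / q / ⌊1 / (2 * nn (q * α))⌋₊ = k).card : ℝ) ≤
      2 * ε / nn (q * α) + 1 := by
  classical
  set η : ℝ := nn (q * α) with hηd
  set w : ℕ := ⌊1 / (2 * η)⌋₊ with hw
  set S : Finset ℕ := A.filter fun n => n % q = r ∧ n / q / w = k with hS
  have hq0 : 0 < q := hq
  have hwη : (w : ℝ) * η ≤ 1 / 2 := by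
    have h1 : (w : ℝ) ≤ 1 / (2 * η) := Nat.floor_le (by positivity)
    calc (w : ℝ) * η ≤ 1 / (2 * η) * η := mul_le_mul_of_nonneg_right h1 hη.le
      _ = 1 / 2 := by field_simp
  have hw1 : 1 ≤ w := by
    rw [hw]
    refine Nat.le_floor ?_
    rw [Nat.cast_one, le_div_iff₀ (by positivity)]
    have := nn_le_half (q * α)
    linarith
  rcases S.eq_empty_or_nonempty with h | h
  · rw [h, Finset.card_empty, Nat.cast_zero]
    positivity
  set n₀ : ℕ := S.min' h with hn₀
  have hn₀S : n₀ ∈ S := S.min'_mem h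
  have hmin : ∀ n ∈ S, n₀ ≤ n := fun n hn => S.min'_le n hn
  have hmem : ∀ n ∈ S, n ∈ A ∧ n % q = r ∧ n / q / w = k := by
    intro n hn
    rw [hS, Finset.mem_filter] at hn
    exact hn
  obtain ⟨h1, h2, h3⟩ := hmem n₀ hn₀S
  have hkey : ∀ n ∈ S, n / q - n₀ / q ∈ Finset.range (⌊2 * ε / η⌋₊ + 1) := by
    intro n hn
    obtain ⟨g1, g2, g3⟩ := hmem n hn
    have hle : n₀ / q ≤ n / q := Nat.div_le_div_right (hmin n hn)
    set t : ℕ := n / q - n₀ / q with ht
    have htw : t ≤ w := by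
      have e1 := Nat.div_add_mod (n / q) w
      have e2 := Nat.div_add_mod (n₀ / q) w
      rw [g3] at e1
      rw [h3] at e2
      have e3 := Nat.mod_lt (n / q) (by omega : w > 0)
      omega
    have hnt : (n : ℝ) = n₀ + t * q := by
      have e1 := Nat.div_add_mod n q
      have e2 := Nat.div_add_mod n₀ q
      rw [g2] at e1
      rw [h2] at e2
      have e4 : n = n₀ + t * q := by
        have e5 : n / q = n₀ / q + t := by omega
        rw [e5] at e1
        rw [← e1]
        nth_rewrite 2 [← e2]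
        ring
      exact_mod_cast e4
    have hth : (t : ℝ) * η ≤ 1 / 2 := by
      have : (t : ℝ) ≤ w := by exact_mod_cast htw
      exact (mul_le_mul_of_nonneg_right this hη.le).trans hwη
    have hmul := nn_mul (q * α) t hth
    have hsub := nn_sub (n * α + β) (n₀ * α + β)
    have e : (n : ℝ) * α + β - (n₀ * α + β) = t * (q * α) := by
      rw [hnt]
      ring
    rw [e, hmul] at hsub
    have h5 := hA n g1
    have h6 := hA n₀ h1
    have h7 : (t : ℝ) * η ≤ 2 * ε := by linarith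
    rw [Finset.mem_range]
    refine Nat.lt_succ_of_le (Nat.le_floor ?_)
    rw [le_div_iff₀ hη]
    exact h7
  have hcard : S.card ≤ ⌊2 * ε / η⌋₊ + 1 := by
    have h4 := Finset.card_le_card_of_injOn (s := S) (t := Finset.range (⌊2 * ε / η⌋₊ + 1))
      (fun n => n / q - n₀ / q) (fun n hn => hkey n hn) ?_
    · rwa [Finset.card_range] at h4
    · intro n hn n' hn' hnn
      obtain ⟨g1, g2, g3⟩ := hmem n hn
      obtain ⟨g1', g2', g3'⟩ := hmem n' hn'
      have hle : n₀ / q ≤ n / q := Nat.div_le_div_right (hmin n hn)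
      have hle' : n₀ / q ≤ n' / q := Nat.div_le_div_right (hmin n' hn')
      have e0 : n / q - n₀ / q = n' / q - n₀ / q := hnn
      have e1 := Nat.div_add_mod n q
      have e2 := Nat.div_add_mod n' q
      have e3 : n / q = n' / q := by omega
      rw [← e1, ← e2, e3, g2, g2']
  have h8 : (⌊2 * ε / η⌋₊ : ℝ) ≤ 2 * ε / η := Nat.floor_le (by positivity)
  have h9 : (S.card : ℝ) ≤ ⌊2 * ε / η⌋₊ + 1 := by exact_mod_cast hcard
  linarith

end Pool.Agent.SZW
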