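import Pool.Agent.Lib.SZW.D0
import Pool.Agent.Lib.SZW.A1
import Pool.Agent.Lib.SZW.A4

/-!
# A5 (M): the number of elements of `A`
-/

set_option autoImplicit false

namespace Pool.Agent.SZW

/-- Count `A` by the pairs `(n % q, n / q / w)`, `w = ⌊1 / (2 η)⌋ ≥ 1`: there are at most
`q ((N / q) / w + 1)` of them (`N / q`, `/ w` natural divisions), so
`|A| ≤ (2 ε / η + 1) (N / w + q) ≤ (2 ε / η + 1) (4 η N + q)`, as `1 / w ≤ 4 η` (`⌊x⌋ ≥ x / 2` for
`x ≥ 1`). -/
theorem card_bound {A : Finset ℕ} {N q : ℕ} {α β ε : ℝ} (hq : 1 ≤ q) (hη : 0 < nn (q * α))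
    (hN : ∀ n ∈ A, n < N) (hε : 0 ≤ ε) (hA : ∀ n ∈ A, nn (n * α + β) ≤ ε) :
    (A.card : ℝ) ≤ (2 * ε / nn (q * α) + 1) * (4 * nn (q * α) * N + q) := by
  classical
  set η : ℝ := nn (q * α) with hηd
  set w : ℕ := ⌊1 / (2 * η)⌋₊ with hw
  have hq0 : (0 : ℝ) < q := by exact_mod_cast hq
  have hηh : η ≤ 1 / 2 := nn_le_half (q * α)
  have hx1 : 1 ≤ 1 / (2 * η) := by
    rw [le_div_iff₀ (by positivity)]
    linarith
  have hw1 : 1 ≤ w := by
    rw [hw]
    exact Nat.le_floor (by simpa using hx1)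
  have hw1' : (1 : ℝ) ≤ w := by exact_mod_cast hw1
  have hw2 : 1 / (4 * η) ≤ w := by
    have h1 := Nat.lt_floor_add_one (1 / (2 * η))
    have h2 : 1 / (2 * η) = 2 * (1 / (4 * η)) := by
      field_simp
      ring
    rw [← hw, h2] at h1
    linarith
  have hmaps : ∀ n ∈ A, (n % q, n / q / w) ∈ Finset.range q ×ˢ Finset.range (N / q / w + 1) := by
    intro n hn
    rw [Finset.mem_product, Finset.mem_range, Finset.mem_range]
    refine ⟨Nat.mod_lt _ hq, Nat.lt_succ_of_le ?_⟩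
    exact Nat.div_le_div_right (Nat.div_le_div_right (hN n hn).le)
  have hcard := Finset.card_eq_sum_card_fiberwise (f := fun n => (n % q, n / q / w)) (s := A)
    (t := Finset.range q ×ˢ Finset.range (N / q / w + 1)) hmaps
  have hfib : ∀ p ∈ Finset.range q ×ˢ Finset.range (N / q / w + 1),
      ((A.filter fun n => (n % q, n / q / w) = p).card : ℝ) ≤ 2 * ε / η + 1 := by
    intro p _
    have h1 := fibre_card (A := A) (q := q) (α := α) (β := β) (ε := ε) hq hη hε hA p.1 p.2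
    have h2 : (A.filter fun n => (n % q, n / q / w) = p) =
        A.filter fun n => n % q = p.1 ∧ n / q / w = p.2 := by
      refine Finset.filter_congr (fun n _ => ?_)
      rw [Prod.ext_iff]
    rw [h2]
    exact h1
  have hB : 0 ≤ 2 * ε / η + 1 := by positivity
  have h3 : (A.card : ℝ) ≤ ((q * (N / q / w + 1) : ℕ) : ℝ) * (2 * ε / η + 1) := by
    rw [hcard]
    push_cast
    calc ∑ p ∈ Finset.range q ×ˢ Finset.range (N / q / w + 1),
          ((A.filter fun n => (n % q, n / q / w) = p).card : ℝ)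
        ≤ ∑ _p ∈ Finset.range q ×ˢ Finset.range (N / q / w + 1), (2 * ε / η + 1) :=
          Finset.sum_le_sum hfib
      _ = (q : ℝ) * (((N / q / w : ℕ) : ℝ) + 1) * (2 * ε / η + 1) := by
          rw [Finset.sum_const, Finset.card_product, Finset.card_range, Finset.card_range,
            nsmul_eq_mul]
          push_cast
          ring
  have h4 : ((q * (N / q / w + 1) : ℕ) : ℝ) ≤ 4 * η * N + q := by
    push_cast
    have h5 : ((N / q / w : ℕ) : ℝ) ≤ ((N / q : ℕ) : ℝ) / w := Nat.cast_div_le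
    have h6 : ((N / q : ℕ) : ℝ) ≤ (N : ℝ) / q := Nat.cast_div_le
    have h7 : ((N / q : ℕ) : ℝ) / w ≤ (N : ℝ) / q / w :=
      div_le_div_of_nonneg_right h6 (by linarith)
    have h8 : (q : ℝ) * ((N : ℝ) / q / w) = N / w := by
      field_simp
    have h9 : (N : ℝ) / w ≤ 4 * η * N := by
      rw [div_le_iff₀ (by linarith)]
      have h10 : 1 ≤ 4 * η * w := by
        rw [div_le_iff₀ (by positivity)] at hw2
        linarith
      have h11 : (0 : ℝ) ≤ N := Nat.cast_nonneg _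
      nlinarith
    have h12 : (q : ℝ) * ((N / q / w : ℕ) : ℝ) ≤ 4 * η * N := by
      calc (q : ℝ) * ((N / q / w : ℕ) : ℝ) ≤ q * ((N : ℝ) / q / w) :=
            mul_le_mul_of_nonneg_left (h5.trans h7) hq0.le
        _ = N / w := h8
        _ ≤ _ := h9
    linarith
  calc (A.card : ℝ) ≤ ((q * (N / q / w + 1) : ℕ) : ℝ) * (2 * ε / η + 1) := h3
    _ ≤ (4 * η * N + q) * (2 * ε / η + 1) := mul_le_mul_of_nonneg_right h4 hB
    _ = (2 * ε / η + 1) * (4 * η * N + q) := by ring

end Pool.Agent.SZW
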