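import Pool.Agent.Lib.SZW.D0
import Pool.Agent.Lib.SZW.A1
import Pool.Agent.Lib.SZW.A3
import Pool.Agent.Lib.SZW.A5

/-!
# A6 (M): the one-dimensional recurrence lemma
-/

set_option autoImplicit false

namespace Pool.Agent.SZW

/-- Take `n < n'` in `A` with `q = n' - n ≤ 2 / ρ` (`exists_gap`). Then `η = nn (q α_j) ≤ 2 ε` for all
`j` (`nn_sub`). If `η > 0`, `card_bound` gives
`ρ N ≤ (2 ε / η + 1) (4 η N + q) = 8 ε N + 4 η N + 2 ε q / η + q ≤ 16 ε N + q + 2 ε q / η`, where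
`16 ε N ≤ ρ N / 2` and `q ≤ 2 / ρ ≤ ρ N / 4`; so `ρ N / 4 ≤ 2 ε q / η` and
`η ≤ 8 ε q / (ρ N) ≤ 16 ε / (ρ ^ 2 N)`. -/
theorem recurrence {κ : Type*} {A : Finset ℕ} {N : ℕ} {ρ ε : ℝ} {α β : κ → ℝ} (hρ : 0 < ρ)
    (hρ1 : ρ ≤ 1) (hN : 8 / ρ ^ 2 ≤ N) (hε : 0 ≤ ε) (hε' : 32 * ε ≤ ρ) (hA : ∀ n ∈ A, n < N)
    (hc : ρ * N ≤ A.card) (h : ∀ n ∈ A, ∀ j, nn (n * α j + β j) ≤ ε) :
    ∃ q : ℕ, 1 ≤ q ∧ (q : ℝ) ≤ 2 / ρ ∧ ∀ j, nn (q * α j) ≤ 16 * ε / (ρ ^ 2 * N) := by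
  have hN0 : (0 : ℝ) < N := lt_of_lt_of_le (by positivity) hN
  have hN1 : 8 ≤ N * ρ ^ 2 := by rwa [div_le_iff₀ (by positivity)] at hN
  have hN2 : 8 ≤ ρ * N := by nlinarith [mul_pos hρ hN0]
  obtain ⟨n, hn, n', hn', hlt, hq⟩ := exists_gap hρ (by linarith) hA hc
  refine ⟨n' - n, by omega, hq, ?_⟩
  intro j
  set q : ℕ := n' - n with hqd
  have hqc : (q : ℝ) = n' - n := by
    rw [hqd, Nat.cast_sub hlt.le]
  have hη2 : nn (q * α j) ≤ 2 * ε := by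
    have h1 := nn_sub (n' * α j + β j) (n * α j + β j)
    have h2 : (n' * α j + β j) - (n * α j + β j) = q * α j := by
      rw [hqc]
      ring
    rw [h2] at h1
    have h3 := h n' hn' j
    have h4 := h n hn j
    linarith
  rcases (nn_nonneg (q * α j)).eq_or_lt with h0 | h0
  · rw [← h0]
    positivity
  · have hq1 : 1 ≤ q := by omega
    have hq0 : (0 : ℝ) < q := by exact_mod_cast hq1
    have hcb := card_bound hq1 h0 hA hε (fun n hn => h n hn j)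
    set η : ℝ := nn (q * α j) with hη
    have h1 : ρ * N ≤ (2 * ε / η + 1) * (4 * η * N + q) := hc.trans hcb
    have h2 : (2 * ε / η + 1) * (4 * η * N + q) = 8 * ε * N + 4 * η * N + 2 * ε * q / η + q := by
      field_simp
      ring
    rw [h2] at h1
    have h3 : 4 * η * N ≤ 8 * ε * N := by nlinarith
    have h4 : 16 * ε * N ≤ ρ * N / 2 := by nlinarith
    have h5 : (q : ℝ) ≤ ρ * N / 4 := by
      refine hq.trans ?_
      rw [div_le_iff₀ hρ]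
      nlinarith
    have h6 : ρ * N / 4 ≤ 2 * ε * q / η := by linarith
    rw [le_div_iff₀ h0] at h6
    rw [le_div_iff₀ (by positivity)]
    have h7 : (q : ℝ) * ρ ≤ 2 := by rwa [le_div_iff₀ hρ] at hq
    have h8 : η * (ρ * N) ≤ 8 * ε * q := by linarith
    have h9 : ρ * (η * (ρ * N)) ≤ ρ * (8 * ε * q) := mul_le_mul_of_nonneg_left h8 hρ.le
    have h10 : 8 * ε * (q * ρ) ≤ 8 * ε * 2 := mul_le_mul_of_nonneg_left h7 (by positivity)
    calc η * (ρ ^ 2 * N) = ρ * (η * (ρ * N)) := by ring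
      _ ≤ ρ * (8 * ε * q) := h9
      _ = 8 * ε * (q * ρ) := by ring
      _ ≤ 8 * ε * 2 := h10
      _ = 16 * ε := by ring

end Pool.Agent.SZW
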