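import Pool.Agent.Lib.SZW.D0
import Pool.Agent.Lib.SZW.A1

/-!
# A2 (S/M): the exponential function and geometric sums
-/

set_option autoImplicit false

namespace Pool.Agent.SZW

theorem ee_add (s t : ℝ) : ee (s + t) = ee s * ee t := by
  unfold ee
  rw [← Complex.exp_add]
  congr 1
  push_cast
  ring

theorem ee_zero : ee 0 = 1 := by
  unfold ee
  simp

theorem norm_ee (t : ℝ) : ‖ee t‖ = 1 := by
  unfold ee
  have h : 2 * (Real.pi : ℂ) * (t : ℂ) * Complex.I = ((2 * Real.pi * t : ℝ) : ℂ) * Complex.I := by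
    push_cast
    ring
  rw [h, Complex.norm_exp_ofReal_mul_I]

theorem ee_int (k : ℤ) : ee k = 1 := by
  unfold ee
  have h : 2 * (Real.pi : ℂ) * ((k : ℝ) : ℂ) * Complex.I = k * (2 * Real.pi * Complex.I) := by
    push_cast
    ring
  rw [h, Complex.exp_int_mul_two_pi_mul_I]

/-- complex conjugation -/
theorem conj_ee (t : ℝ) : (starRingEnd ℂ) (ee t) = ee (-t) := by
  unfold ee
  rw [← Complex.exp_conj]
  congr 1
  have h2 : (starRingEnd ℂ) 2 = 2 := Complex.conj_ofNat 2
  rw [map_mul, map_mul, map_mul, h2, Complex.conj_ofReal, Complex.conj_ofReal, Complex.conj_I]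
  push_cast
  ring

theorem ee_sum {κ : Type*} (s : Finset κ) (f : κ → ℝ) : ee (∑ i ∈ s, f i) = ∏ i ∈ s, ee (f i) := by
  classical
  induction s using Finset.induction_on with
  | empty => simp [ee_zero]
  | insert a s ha ih => rw [Finset.sum_insert ha, Finset.prod_insert ha, ee_add, ih]

/-- `‖1 - ee t‖ = 2 |sin (π t)| ≥ 4 nn t` (Jordan's inequality `Real.mul_le_sin`) -/
theorem norm_one_sub_ee (t : ℝ) : 4 * nn t ≤ ‖1 - ee t‖ := by
  have h1 : ee t = ee (t - round t) := by
    have h2 : t = (t - round t) + ((round t : ℤ) : ℝ) := by ring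
    conv_lhs => rw [h2]
    rw [ee_add, ee_int, mul_one]
  have h3 : |t - round t| ≤ 1 / 2 := abs_sub_round t
  rw [h1]
  unfold nn
  set s := t - round t with hs
  have h4 : ‖1 - ee s‖ = ‖2 * Real.sin (Real.pi * s)‖ := by
    rw [norm_sub_rev]
    have h5 := Complex.norm_exp_I_mul_ofReal_sub_one (2 * Real.pi * s)
    have h6 : 2 * Real.pi * s / 2 = Real.pi * s := by ring
    rw [h6] at h5
    rw [← h5]
    unfold ee
    congr 3
    push_cast
    ring
  rw [h4, Real.norm_eq_abs, abs_mul, abs_two]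
  have h7 : |Real.sin (Real.pi * s)| = |Real.sin (Real.pi * |s|)| := by
    rcases le_or_gt 0 s with h | h
    · rw [abs_of_nonneg h]
    · rw [abs_of_neg h, mul_neg, Real.sin_neg, abs_neg]
  have h8 : 2 / Real.pi * (Real.pi * |s|) ≤ Real.sin (Real.pi * |s|) := by
    refine Real.mul_le_sin (by positivity) ?_
    have := Real.pi_pos
    nlinarith
  have h9 : 2 / Real.pi * (Real.pi * |s|) = 2 * |s| := by
    field_simp
  rw [h9] at h8
  rw [h7]
  have h10 := le_abs_self (Real.sin (Real.pi * |s|))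
  linarith

/-- Geometric sums: `S (1 - ee t) = ee (a t) - ee (c t)`. -/
theorem geom_bound (a c : ℤ) (t : ℝ) : ‖∑ n ∈ Finset.Ico a c, ee (n * t)‖ * (2 * nn t) ≤ 1 := by
  have key : ∀ k : ℕ, (∑ n ∈ Finset.Ico a (a + k), ee (n * t)) * (1 - ee t) =
      ee (a * t) - ee ((a + k : ℝ) * t) := by
    intro k
    induction k with
    | zero => simp
    | succ k ih =>
      have h1 : Finset.Ico a (a + ((k + 1 : ℕ) : ℤ)) = insert (a + (k : ℤ)) (Finset.Ico a (a + k)) := by
        ext n
        simp only [Finset.mem_Ico, Finset.mem_insert]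
        push_cast
        omega
      rw [h1, Finset.sum_insert (by simp), add_mul, ih]
      have h2 : ee ((a + ((k + 1 : ℕ) : ℝ)) * t) = ee ((a + k : ℝ) * t) * ee t := by
        rw [← ee_add]
        congr 1
        push_cast
        ring
      rw [h2]
      push_cast
      ring
  rcases le_or_gt c a with h | h
  · rw [Finset.Ico_eq_empty (by omega), Finset.sum_empty, norm_zero, zero_mul]
    exact zero_le_one
  · obtain ⟨k, hk⟩ : ∃ k : ℕ, c = a + k := ⟨(c - a).toNat, by omega⟩
    subst hk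
    have h1 := norm_one_sub_ee t
    have h2 : ‖∑ n ∈ Finset.Ico a (a + k), ee (n * t)‖ * ‖1 - ee t‖ ≤ 2 := by
      rw [← norm_mul, key k]
      refine (norm_sub_le _ _).trans ?_
      rw [norm_ee, norm_ee]
      norm_num
    have h3 := mul_le_mul_of_nonneg_left h1 (norm_nonneg (∑ n ∈ Finset.Ico a (a + k), ee (n * t)))
    linarith

/-- trivial bound -/
theorem geom_le (a c : ℤ) (t : ℝ) (P : ℕ) (h : c - a ≤ P) :
    ‖∑ n ∈ Finset.Ico a c, ee (n * t)‖ ≤ P := by
  refine (norm_sum_le _ _).trans ?_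
  have h1 : ∀ n ∈ Finset.Ico a c, ‖ee (n * t)‖ = 1 := fun n _ => norm_ee _
  rw [Finset.sum_congr rfl h1, Finset.sum_const, nsmul_eq_mul, mul_one, Int.card_Ico]
  have h2 : (c - a).toNat ≤ P := by omega
  exact_mod_cast h2

end Pool.Agent.SZW
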