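import Pool.Agent.Lib.SZW.D0
import Pool.Agent.Lib.SZW.A1
import Pool.Agent.Lib.SZW.A2

/-!
# B1 (M): linear phases
-/

set_option autoImplicit false

namespace Pool.Agent.SZW

variable {ι : Type*} [Fintype ι] [DecidableEq ι]

/-- `Finset.prod_univ_sum` -/
theorem sm_aff (a c : ι → ℤ) (γ : ι → ℝ) (γ₀ : ℝ) :
    sm a c (aff γ γ₀) = ee γ₀ * ∏ i, ∑ n ∈ Finset.Ico (a i) (c i), ee (n * γ i) := by
  unfold sm box
  rw [Finset.prod_univ_sum, Finset.mul_sum]
  apply Finset.sum_congr rfl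
  intro x _
  unfold aff
  rw [ee_add, ee_sum, mul_comm]

/-- trivial bound for a box with sides at most `P` -/
theorem box_card {a c : ι → ℤ} {P : ℕ} (h : Side a c P) :
    (box a c).card ≤ P ^ Fintype.card ι := by
  unfold box
  rw [Fintype.card_piFinset]
  calc ∏ i, (Finset.Ico (a i) (c i)).card ≤ ∏ _i : ι, P := by
        apply Finset.prod_le_prod'
        intro i _
        rw [Int.card_Ico]
        have := h i
        omega
    _ = P ^ Fintype.card ι := by rw [Finset.prod_const, Finset.card_univ]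

theorem sm_le {a c : ι → ℤ} {P : ℕ} (h : Side a c P) (φ : (ι → ℤ) → ℝ) :
    ‖sm a c φ‖ ≤ (P : ℝ) ^ Fintype.card ι := by
  unfold sm
  refine (norm_sum_le _ _).trans ?_
  have h1 : ∀ x ∈ box a c, ‖ee (φ x)‖ = 1 := fun x _ => norm_ee _
  rw [Finset.sum_congr rfl h1, Finset.sum_const, nsmul_eq_mul, mul_one]
  exact_mod_cast box_card h

/-- The modulus of the sum is the product of the moduli of the one-dimensional sums; all of them are
at most `P`, so each of them is at least `δ P`; use `geom_bound`. -/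
theorem lin_inv {a c : ι → ℤ} {P : ℕ} (hP : 1 ≤ P) (h : Side a c P) {γ : ι → ℝ} {γ₀ δ : ℝ}
    (hδ : 0 < δ) (hs : δ * (P : ℝ) ^ Fintype.card ι ≤ ‖sm a c (aff γ γ₀)‖) (j : ι) :
    nn (γ j) ≤ 1 / (2 * δ * P) := by
  have hP0 : (0 : ℝ) < P := by exact_mod_cast hP
  rw [sm_aff, norm_mul, norm_ee, one_mul, norm_prod, ← Finset.mul_prod_erase _ _ (Finset.mem_univ j)] at hs
  set S : ℝ := ‖∑ n ∈ Finset.Ico (a j) (c j), ee (n * γ j)‖ with hS
  have h1 : ∏ i ∈ Finset.univ.erase j, ‖∑ n ∈ Finset.Ico (a i) (c i), ee (n * γ i)‖ ≤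
      (P : ℝ) ^ (Fintype.card ι - 1) := by
    calc ∏ i ∈ Finset.univ.erase j, ‖∑ n ∈ Finset.Ico (a i) (c i), ee (n * γ i)‖ ≤
          ∏ _i ∈ Finset.univ.erase j, (P : ℝ) := by
          apply Finset.prod_le_prod
          · intro i _
            exact norm_nonneg _
          · intro i _
            exact geom_le _ _ _ _ (h i)
      _ = (P : ℝ) ^ (Fintype.card ι - 1) := by
          rw [Finset.prod_const, Finset.card_erase_of_mem (Finset.mem_univ j), Finset.card_univ]
  have h2 : δ * (P : ℝ) ^ Fintype.card ι ≤ S * (P : ℝ) ^ (Fintype.card ι - 1) :=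
    hs.trans (mul_le_mul_of_nonneg_left h1 (norm_nonneg _))
  have hd : 1 ≤ Fintype.card ι := Fintype.card_pos_iff.mpr ⟨j⟩
  have h3 : (P : ℝ) ^ Fintype.card ι = P * (P : ℝ) ^ (Fintype.card ι - 1) := by
    rw [← pow_succ']
    congr 1
    omega
  rw [h3, ← mul_assoc] at h2
  have h4 : δ * P ≤ S := le_of_mul_le_mul_right h2 (by positivity)
  have h5 := geom_bound (a j) (c j) (γ j)
  have h6 : δ * P * (2 * nn (γ j)) ≤ 1 :=
    (mul_le_mul_of_nonneg_right h4 (by have := nn_nonneg (γ j); positivity)).trans h5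
  rw [le_div_iff₀ (by positivity)]
  linarith

end Pool.Agent.SZW
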