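import Pool.Agent.Lib.SZW.D0
import Pool.Agent.Lib.SZW.A2

/-!
# B2 (M): Weyl differencing on a box
-/

set_option autoImplicit false

namespace Pool.Agent.SZW

variable {ι : Type*} [Fintype ι] [DecidableEq ι]

/-- the intersection of a box and its translate -/
theorem box_inter (a c h : ι → ℤ) :
    ((box a c).filter fun x => x + h ∈ box a c) =
      box (fun i => max (a i) (a i - h i)) (fun i => min (c i) (c i - h i)) := by
  ext x
  unfold box
  simp only [Finset.mem_filter, Fintype.mem_piFinset, Finset.mem_Ico, Pi.add_apply]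
  constructor
  · rintro ⟨h1, h2⟩ i
    have := h1 i
    have := h2 i
    constructor
    · rw [max_le_iff]
      omega
    · rw [lt_min_iff]
      omega
  · intro h1
    constructor
    · intro i
      have := h1 i
      rw [max_le_iff, lt_min_iff] at this
      omega
    · intro i
      have := h1 i
      rw [max_le_iff, lt_min_iff] at this
      omega

theorem side_inter {a c : ι → ℤ} {P : ℕ} (h : Side a c P) (k : ι → ℤ) :
    Side (fun i => max (a i) (a i - k i)) (fun i => min (c i) (c i - k i)) P := by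
  intro i
  have h1 := h i
  have h2 : min (c i) (c i - k i) ≤ c i := min_le_left _ _
  have h3 : a i ≤ max (a i) (a i - k i) := le_max_left _ _
  show min (c i) (c i - k i) - max (a i) (a i - k i) ≤ P
  omega

/-- `‖S‖ ^ 2 = ∑ x y, ee (φ y - φ x)`, and `y = x + h` with `h` in the box with sides from `- P` to
`P`; for given `h` the `x` are those of `box_inter`. -/
theorem differencing {a c : ι → ℤ} {P : ℕ} (h : Side a c P) (φ : (ι → ℤ) → ℝ) :
    ‖sm a c φ‖ ^ 2 ≤ ∑ k ∈ box (fun _ => -(P : ℤ)) (fun _ => (P : ℤ)),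
      ‖sm (fun i => max (a i) (a i - k i)) (fun i => min (c i) (c i - k i))
        (fun x => φ (x + k) - φ x)‖ := by
  set K : Finset (ι → ℤ) := box (fun _ => -(P : ℤ)) (fun _ => (P : ℤ)) with hK
  have hmemK : ∀ x ∈ box a c, ∀ y ∈ box a c, y - x ∈ K := by
    intro x hx y hy
    rw [hK]
    unfold box at hx hy ⊢
    rw [Fintype.mem_piFinset] at hx hy ⊢
    intro i
    have h1 := hx i
    have h2 := hy i
    have h3 := h i
    rw [Finset.mem_Ico] at h1 h2 ⊢
    rw [Pi.sub_apply]
    show -(P : ℤ) ≤ y i - x i ∧ y i - x i < (P : ℤ)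
    omega
  have hinner : ∀ x ∈ box a c, ∑ y ∈ box a c, ee (φ y - φ x) =
      ∑ k ∈ K, if x + k ∈ box a c then ee (φ (x + k) - φ x) else 0 := by
    intro x hx
    rw [← Finset.sum_filter]
    symm
    refine Finset.sum_nbij' (fun k => x + k) (fun y => y - x) ?_ ?_ ?_ ?_ ?_
    · intro k hk
      exact (Finset.mem_filter.1 hk).2
    · intro y hy
      rw [Finset.mem_filter]
      refine ⟨hmemK x hx y hy, ?_⟩
      rw [add_sub_cancel]
      exact hy
    · intro k _
      show x + k - x = k
      rw [add_sub_cancel_left]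
    · intro y _
      show x + (y - x) = y
      rw [add_sub_cancel]
    · intro k _
      rfl
  have hsq : ((‖sm a c φ‖ ^ 2 : ℝ) : ℂ) = ∑ x ∈ box a c, ∑ y ∈ box a c, ee (φ y - φ x) := by
    have h1 : ((‖sm a c φ‖ ^ 2 : ℝ) : ℂ) = sm a c φ * (starRingEnd ℂ) (sm a c φ) := by
      rw [Complex.mul_conj, Complex.normSq_eq_norm_sq]
    rw [h1]
    unfold sm
    rw [map_sum, Finset.sum_mul_sum, Finset.sum_comm]
    refine Finset.sum_congr rfl (fun x _ => Finset.sum_congr rfl (fun y _ => ?_))
    rw [conj_ee, ← ee_add, sub_eq_add_neg]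
  have hfin : ((‖sm a c φ‖ ^ 2 : ℝ) : ℂ) = ∑ k ∈ K,
      sm (fun i => max (a i) (a i - k i)) (fun i => min (c i) (c i - k i))
        (fun x => φ (x + k) - φ x) := by
    rw [hsq, Finset.sum_congr rfl hinner, Finset.sum_comm]
    refine Finset.sum_congr rfl (fun k _ => ?_)
    unfold sm
    rw [← box_inter, Finset.sum_filter]
  have h2 : ‖((‖sm a c φ‖ ^ 2 : ℝ) : ℂ)‖ = ‖sm a c φ‖ ^ 2 := by
    rw [Complex.norm_real, Real.norm_of_nonneg (by positivity)]
  rw [← h2, hfin]
  exact norm_sum_le _ _

end Pool.Agent.SZW
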