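import Pool.Agent.Lib.SZW.D0
import Pool.Agent.Lib.SZW.B1
import Pool.Agent.Lib.SZW.B2

/-!
# B3 (M): many shifts with a large sum
-/

set_option autoImplicit false

namespace Pool.Agent.SZW

variable {ι : Type*} [Fintype ι] [DecidableEq ι]

/-- the box of the shifts -/
noncomputable def shifts (ι : Type*) [Fintype ι] [DecidableEq ι] (P : ℕ) : Finset (ι → ℤ) :=
  box (fun _ => -(P : ℤ)) (fun _ => (P : ℤ))

theorem shifts_card (P : ℕ) : (shifts ι P).card = (2 * P) ^ Fintype.card ι := by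
  unfold shifts box
  rw [Fintype.card_piFinset]
  have h1 : ∀ i : ι, (Finset.Ico (-(P : ℤ)) (P : ℤ)).card = 2 * P := by
    intro _
    rw [Int.card_Ico]
    omega
  rw [Finset.prod_congr rfl (fun i _ => h1 i), Finset.prod_const, Finset.card_univ]

/-- Averaging: if `∑ T ≥ δ ^ 2 P ^ (2 d)`, `T ≤ P ^ d` and there are `(2 P) ^ d` shifts, then
`T ≥ δ ^ 2 P ^ d / 2 ^ (d + 1)` for at least `δ ^ 2 P ^ d / 2` shifts. (The sum over the other shifts is
at most `δ ^ 2 P ^ (2 d) / 2`.) -/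
theorem popular {a c : ι → ℤ} {P : ℕ} (hP : 1 ≤ P) (h : Side a c P) {φ : (ι → ℤ) → ℝ} {δ : ℝ}
    (hδ : 0 < δ) (hs : δ * (P : ℝ) ^ Fintype.card ι ≤ ‖sm a c φ‖) :
    δ ^ 2 / 2 * (P : ℝ) ^ Fintype.card ι ≤ (((shifts ι P).filter fun k =>
      δ ^ 2 / 2 ^ (Fintype.card ι + 1) * (P : ℝ) ^ Fintype.card ι ≤
      ‖sm (fun i => max (a i) (a i - k i)) (fun i => min (c i) (c i - k i))
        (fun x => φ (x + k) - φ x)‖).card : ℝ) := by
  classical
  set d : ℕ := Fintype.card ι with hd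
  set T : (ι → ℤ) → ℝ := fun k => ‖sm (fun i => max (a i) (a i - k i))
    (fun i => min (c i) (c i - k i)) (fun x => φ (x + k) - φ x)‖ with hT
  have hP0 : (0 : ℝ) < (P : ℝ) ^ d := by
    have : (0 : ℝ) < P := by exact_mod_cast hP
    positivity
  set θ : ℝ := δ ^ 2 / 2 ^ (d + 1) * (P : ℝ) ^ d with hθ
  have hθ0 : 0 ≤ θ := by positivity
  show δ ^ 2 / 2 * (P : ℝ) ^ d ≤ (((shifts ι P).filter fun k => θ ≤ T k).card : ℝ)
  have h1 : ‖sm a c φ‖ ^ 2 ≤ ∑ k ∈ shifts ι P, T k := differencing h φ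
  have h2 : (δ * (P : ℝ) ^ d) ^ 2 ≤ ‖sm a c φ‖ ^ 2 := pow_le_pow_left₀ (by positivity) hs 2
  have h3 : ∑ k ∈ shifts ι P, T k =
      ∑ k ∈ (shifts ι P).filter (fun k => θ ≤ T k), T k +
        ∑ k ∈ (shifts ι P).filter (fun k => ¬ θ ≤ T k), T k :=
    (Finset.sum_filter_add_sum_filter_not _ _ _).symm
  have h4 : ∑ k ∈ (shifts ι P).filter (fun k => θ ≤ T k), T k ≤
      (((shifts ι P).filter fun k => θ ≤ T k).card : ℝ) * (P : ℝ) ^ d := by
    rw [← nsmul_eq_mul, ← Finset.sum_const]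
    refine Finset.sum_le_sum (fun k _ => ?_)
    exact sm_le (side_inter h k) _
  have h5 : ∑ k ∈ (shifts ι P).filter (fun k => ¬ θ ≤ T k), T k ≤
      (2 * (P : ℝ)) ^ d * θ := by
    calc ∑ k ∈ (shifts ι P).filter (fun k => ¬ θ ≤ T k), T k
        ≤ ∑ _k ∈ (shifts ι P).filter (fun k => ¬ θ ≤ T k), θ := by
          refine Finset.sum_le_sum (fun k hk => ?_)
          have := (Finset.mem_filter.1 hk).2
          exact (not_le.1 this).le
      _ = (((shifts ι P).filter (fun k => ¬ θ ≤ T k)).card : ℝ) * θ := by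
          rw [Finset.sum_const, nsmul_eq_mul]
      _ ≤ (2 * (P : ℝ)) ^ d * θ := by
          refine mul_le_mul_of_nonneg_right ?_ hθ0
          have h6 := Finset.card_filter_le (shifts ι P) (fun k => ¬ θ ≤ T k)
          rw [shifts_card, ← hd] at h6
          exact_mod_cast h6
  have h7 : (2 * (P : ℝ)) ^ d * θ = δ ^ 2 / 2 * ((P : ℝ) ^ d) ^ 2 := by
    have e0 : (2 : ℝ) ^ (d + 1) = 2 ^ d * 2 := pow_succ 2 d
    rw [hθ, e0, mul_pow]
    field_simp
  have h8 : δ ^ 2 / 2 * (P : ℝ) ^ d * (P : ℝ) ^ d ≤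
      (((shifts ι P).filter fun k => θ ≤ T k).card : ℝ) * (P : ℝ) ^ d := by
    have e1 : (δ * (P : ℝ) ^ d) ^ 2 = δ ^ 2 * ((P : ℝ) ^ d) ^ 2 := by ring
    have e2 : δ ^ 2 / 2 * (P : ℝ) ^ d * (P : ℝ) ^ d = δ ^ 2 / 2 * ((P : ℝ) ^ d) ^ 2 := by ring
    rw [e2]
    rw [h7] at h5
    rw [e1] at h2
    linarith
  exact le_of_mul_le_mul_right h8 hP0

end Pool.Agent.SZW
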