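import Pool.Agent.Lib.SZW.D0
import Pool.Agent.Lib.SZW.B3

/-!
# B4 (M): a line with many points of a dense set
-/

set_option autoImplicit false

namespace Pool.Agent.SZW

variable {ι : Type*} [Fintype ι] [DecidableEq ι]

/-- Count the pairs `(h₀, n)` with `n < P` and `h₀ + n u ∈ H`, for `h₀` in the box with sides from
`- (1 + U) P` to `(1 + U) P`: for every `n` there are `|H|` of them (translates of points of `H`), so
some `h₀` has at least `P |H| / ((2 + 2 U) P) ^ d` numbers `n`. -/
theorem exists_line {P U : ℕ} (hP : 1 ≤ P) {u : ι → ℤ} (hu : ∀ i, |u i| ≤ U)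
    {H : Finset (ι → ℤ)} (hH : H ⊆ shifts ι P) {ρ : ℝ}
    (hρ : ρ * (P : ℝ) ^ Fintype.card ι ≤ H.card) :
    ∃ h₀ : ι → ℤ, ρ / (2 + 2 * U) ^ Fintype.card ι * P ≤
      (((Finset.range P).filter fun n : ℕ => h₀ + (n : ℤ) • u ∈ H).card : ℝ) := by
  classical
  set B : Finset (ι → ℤ) := box (fun _ => -((1 + (U : ℤ)) * P)) (fun _ => (1 + (U : ℤ)) * P) with hB
  have hcard : B.card = ((2 + 2 * U) * P) ^ Fintype.card ι := by
    rw [hB, box, Fintype.card_piFinset, Finset.prod_const, Finset.card_univ]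
    congr 1
    rw [Int.card_Ico]
    have : (1 + (U : ℤ)) * P - -((1 + (U : ℤ)) * P) = (((2 + 2 * U) * P : ℕ) : ℤ) := by push_cast; ring
    rw [this, Int.toNat_natCast]
  have hBne : B.Nonempty := by
    rw [← Finset.card_pos, hcard]
    positivity
  have hslice : ∀ n ∈ Finset.range P, (B.filter fun h₀ => h₀ + (n : ℤ) • u ∈ H).card = H.card := by
    intro n hn
    rw [Finset.mem_range] at hn
    have : (B.filter fun h₀ => h₀ + (n : ℤ) • u ∈ H) = H.image (fun h => h - (n : ℤ) • u) := by
      ext x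
      rw [Finset.mem_filter, Finset.mem_image]
      constructor
      · rintro ⟨-, h⟩
        exact ⟨_, h, add_sub_cancel_right _ _⟩
      · rintro ⟨h, hh, rfl⟩
        refine ⟨?_, by rwa [sub_add_cancel]⟩
        have h1 := hH hh
        rw [shifts, box, Fintype.mem_piFinset] at h1
        rw [hB, box, Fintype.mem_piFinset]
        intro i
        have h2 := Finset.mem_Ico.1 (h1 i)
        have h3 := abs_le.1 (hu i)
        rw [Finset.mem_Ico, Pi.sub_apply, Pi.smul_apply, smul_eq_mul]
        have hn' : (n : ℤ) ≤ P := by exact_mod_cast hn.le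
        have hn0 : (0 : ℤ) ≤ n := by positivity
        have h4 : (n : ℤ) * u i ≤ P * U := by
          calc (n : ℤ) * u i ≤ n * U := mul_le_mul_of_nonneg_left h3.2 hn0
            _ ≤ P * U := mul_le_mul_of_nonneg_right hn' (by positivity)
        have h5 : -((P : ℤ) * U) ≤ (n : ℤ) * u i := by
          have h6 : (n : ℤ) * (-U) ≤ n * u i := mul_le_mul_of_nonneg_left h3.1 hn0
          have h7 : (n : ℤ) * U ≤ P * U := mul_le_mul_of_nonneg_right hn' (by positivity)
          linarith
        constructor <;> nlinarith [h2.1, h2.2]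
    rw [this, Finset.card_image_of_injective _ (sub_left_injective)]
  have hsum : ∑ h₀ ∈ B, (((Finset.range P).filter fun n : ℕ => h₀ + (n : ℤ) • u ∈ H).card : ℝ) = P * H.card := by
    have h1 : ∑ h₀ ∈ B, ((Finset.range P).filter fun n : ℕ => h₀ + (n : ℤ) • u ∈ H).card = P * H.card := by
      simp only [Finset.card_filter]
      rw [Finset.sum_comm]
      simp only [← Finset.card_filter]
      rw [Finset.sum_congr rfl hslice, Finset.sum_const, Finset.card_range, smul_eq_mul]
    exact_mod_cast h1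
  have hP0 : (0 : ℝ) < P := by exact_mod_cast hP
  obtain ⟨h₀, -, h⟩ := Finset.exists_le_of_sum_le (f := fun _ => ρ / (2 + 2 * U) ^ Fintype.card ι * (P : ℝ)) hBne (by
    rw [hsum, Finset.sum_const, hcard, nsmul_eq_mul]
    have h1 : (0 : ℝ) < (2 + 2 * U) ^ Fintype.card ι := by positivity
    have h2 : (((((2 + 2 * U) * P) ^ Fintype.card ι : ℕ)) : ℝ) * (ρ / (2 + 2 * U) ^ Fintype.card ι * P) = P * (ρ * (P : ℝ) ^ Fintype.card ι) := by
      push_cast
      rw [mul_pow]
      field_simp
    rw [h2]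
    exact mul_le_mul_of_nonneg_left hρ hP0.le)
  exact ⟨h₀, h⟩

end Pool.Agent.SZW
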