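import Pool.Agent.Lib.SZW.D0

/-!
# C1 (S/M): algebra of the phases
-/

set_option autoImplicit false

namespace Pool.Agent.SZW

variable {ι : Type*} [Fintype ι] [DecidableEq ι] {R : Type*} [CommRing R]
  (b : Module.Basis ι ℤ R)

theorem E_add (x y : ι → ℤ) : E b (x + y) = E b x + E b y := by
  simp only [E, Pi.add_apply, add_smul, Finset.sum_add_distrib]

theorem E_smul (n : ℤ) (x : ι → ℤ) : E b (n • x) = n • E b x := by
  simp only [E, Pi.smul_apply, smul_eq_mul, mul_smul, Finset.smul_sum]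

/-- coordinates of one -/
theorem E_repr (r : R) : E b (fun i => b.repr r i) = r := by
  exact b.sum_repr r

/-- an additive map, in coordinates -/
theorem map_E (θ : R →+ ℝ) (r : R) (x : ι → ℤ) :
    θ (r * E b x) = ∑ i, (x i : ℝ) * θ (r * b i) := by
  rw [E, Finset.mul_sum, map_sum]
  refine Finset.sum_congr rfl fun i _ => ?_
  rw [mul_smul_comm, map_zsmul, zsmul_eq_mul]

/-- the difference of a quadratic phase is affine -/
theorem diff_two (θ : R →+ ℝ) (γ : ι → ℝ) (γ₀ : ℝ) (k : ι → ℤ) :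
    ∃ γ' : ℝ, (fun x : ι → ℤ => (θ (E b (x + k) ^ 2) + aff γ γ₀ (x + k)) -
      (θ (E b x ^ 2) + aff γ γ₀ x)) = aff (fun i => θ (2 * E b k * b i)) γ' := by
  refine ⟨θ (E b k ^ 2) + ∑ i, (k i : ℝ) * γ i, ?_⟩
  funext x
  have h1 : E b (x + k) ^ 2 = 2 * E b k * E b x + E b k ^ 2 + E b x ^ 2 := by
    rw [E_add]; ring
  have h2 : ∑ i, (((x + k) i : ℤ) : ℝ) * γ i = ∑ i, (x i : ℝ) * γ i + ∑ i, (k i : ℝ) * γ i := by
    rw [← Finset.sum_add_distrib]
    refine Finset.sum_congr rfl fun i _ => ?_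
    rw [Pi.add_apply]; push_cast; ring
  have h3 := map_E b θ (2 * E b k) x
  simp only [aff]
  rw [h1, map_add, map_add, h2, h3]
  ring

/-- the difference of a cubic phase is quadratic; `θ' r = θ (3 * E b k * r)` -/
theorem diff_three (θ θ₂ : R →+ ℝ) (γ : ι → ℝ) (γ₀ : ℝ) (k : ι → ℤ) :
    ∃ (γ' : ι → ℝ) (γ₀' : ℝ), (fun x : ι → ℤ =>
      (θ (E b (x + k) ^ 3) + θ₂ (E b (x + k) ^ 2) + aff γ γ₀ (x + k)) -
      (θ (E b x ^ 3) + θ₂ (E b x ^ 2) + aff γ γ₀ x)) =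
      fun x => (θ.comp (AddMonoidHom.mulLeft (3 * E b k))) (E b x ^ 2) + aff γ' γ₀' x := by
  refine ⟨fun i => θ (3 * E b k ^ 2 * b i) + θ₂ (2 * E b k * b i),
    θ (E b k ^ 3) + θ₂ (E b k ^ 2) + ∑ i, (k i : ℝ) * γ i, ?_⟩
  funext x
  have h1 : E b (x + k) ^ 3 = 3 * E b k * E b x ^ 2 + 3 * E b k ^ 2 * E b x + E b k ^ 3 + E b x ^ 3 := by
    rw [E_add]; ring
  have h1' : E b (x + k) ^ 2 = 2 * E b k * E b x + E b k ^ 2 + E b x ^ 2 := by
    rw [E_add]; ring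
  have h2 : ∑ i, (((x + k) i : ℤ) : ℝ) * γ i = ∑ i, (x i : ℝ) * γ i + ∑ i, (k i : ℝ) * γ i := by
    rw [← Finset.sum_add_distrib]
    refine Finset.sum_congr rfl fun i _ => ?_
    rw [Pi.add_apply]; push_cast; ring
  have h3 := map_E b θ (3 * E b k ^ 2) x
  have h3' := map_E b θ₂ (2 * E b k) x
  have h4 : ∑ i, (x i : ℝ) * (θ (3 * E b k ^ 2 * b i) + θ₂ (2 * E b k * b i)) =
      ∑ i, (x i : ℝ) * θ (3 * E b k ^ 2 * b i) + ∑ i, (x i : ℝ) * θ₂ (2 * E b k * b i) := by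
    rw [← Finset.sum_add_distrib]
    exact Finset.sum_congr rfl fun i _ => mul_add _ _ _
  have h5 : (θ.comp (AddMonoidHom.mulLeft (3 * E b k))) (E b x ^ 2) = θ (3 * E b k * E b x ^ 2) := rfl
  simp only [aff]
  rw [h5, h1, h1', map_add, map_add, map_add, map_add, map_add, h2, h3, h3', h4]
  ring

end Pool.Agent.SZW
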