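import Pool.Agent.Lib.SZW.A6
import Pool.Agent.Lib.SZW.B4
import Pool.Agent.Lib.SZW.C1

/-!
# C2 (M): quadratic phases
-/

set_option autoImplicit false

namespace Pool.Agent.SZW

variable {ι : Type*} [Fintype ι] [DecidableEq ι] {R : Type*} [CommRing R]
  (b : Module.Basis ι ℤ R)

/-- A dense set of shifts `h` with `nn (θ (E h * b j)) ≤ ε` for all `j` gives a small `q` with
`nn (θ (q b j)) ≤ 16 ε / (ρ ^ 2 P)`: `exists_line` with `u` the coordinates of `1`, and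
`θ ((E h₀ + n) b j) = n θ (b j) + θ (E h₀ b j)`, `recurrence`. -/
theorem rec_ring (U : ℕ) (hU : ∀ i, |b.repr 1 i| ≤ U) {P : ℕ} (hP : 1 ≤ P) (θ : R →+ ℝ)
    {H : Finset (ι → ℤ)} (hH : H ⊆ shifts ι P) {σ ρ ε : ℝ} (hσ : 0 < σ) (hσ1 : σ ≤ 1)
    (hρ : ρ = σ / (2 + 2 * U) ^ Fintype.card ι) (hc : σ * (P : ℝ) ^ Fintype.card ι ≤ H.card)
    (hP' : 8 / ρ ^ 2 ≤ P) (hε : 0 ≤ ε) (hε' : 32 * ε ≤ ρ)
    (h : ∀ k ∈ H, ∀ j, nn (θ (E b k * b j)) ≤ ε) :
    ∃ q : ℕ, 1 ≤ q ∧ (q : ℝ) ≤ 2 / ρ ∧ ∀ j, nn (θ ((q : R) * b j)) ≤ 16 * ε / (ρ ^ 2 * P) := by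
  obtain ⟨h₀, h1⟩ := exists_line (ι := ι) hP (u := fun i => b.repr 1 i) hU hH hc
  have hL : (1 : ℝ) ≤ (2 + 2 * (U : ℝ)) ^ Fintype.card ι := by
    apply one_le_pow₀
    have : (0 : ℝ) ≤ U := Nat.cast_nonneg U
    linarith
  have hρ0 : 0 < ρ := by
    rw [hρ]
    exact div_pos hσ (by linarith)
  have hρ1 : ρ ≤ 1 := by
    rw [hρ, div_le_one (by linarith)]
    linarith
  rw [← hρ] at h1
  obtain ⟨q, hq1, hq2, hq3⟩ := recurrence (κ := ι) (α := fun j => θ (b j))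
    (β := fun j => θ (E b h₀ * b j)) hρ0 hρ1 hP' hε hε'
    (A := (Finset.range P).filter fun n : ℕ => h₀ + (n : ℤ) • (fun i => b.repr 1 i) ∈ H)
    (fun n hn => Finset.mem_range.1 (Finset.mem_filter.1 hn).1) h1
    (by
      intro n hn j
      have h2 := h _ (Finset.mem_filter.1 hn).2 j
      have h3 : E b (h₀ + (n : ℤ) • (fun i => b.repr 1 i)) = E b h₀ + (n : R) := by
        rw [E_add, E_smul, E_repr]
        simp
      rw [h3, add_mul, map_add] at h2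
      have h4 : θ ((n : R) * b j) = n * θ (b j) := by
        rw [← nsmul_eq_mul, map_nsmul, nsmul_eq_mul]
      rw [h4, add_comm] at h2
      exact h2)
  refine ⟨q, hq1, hq2, fun j => ?_⟩
  have h4 : θ ((q : R) * b j) = q * θ (b j) := by
    rw [← nsmul_eq_mul, map_nsmul, nsmul_eq_mul]
  rw [h4]
  exact hq3 j

theorem c2_mono {a δ : ℝ} (ha : 0 ≤ a) (hδ : 0 < δ) (hδ1 : δ ≤ 1) {m n : ℕ} (h : m ≤ n) :
    a / δ ^ m ≤ a / δ ^ n :=
  div_le_div_of_nonneg_left ha (pow_pos hδ n) (pow_le_pow_of_le_one hδ.le hδ1 h)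

/-- a bound for the coordinates of one -/
theorem c2_U : ∃ U : ℕ, ∀ i, |b.repr 1 i| ≤ U := by
  refine ⟨∑ i, (b.repr 1 i).natAbs, fun i => ?_⟩
  rw [Int.abs_eq_natAbs]
  exact_mod_cast Finset.single_le_sum (f := fun i => (b.repr 1 i).natAbs)
    (fun _ _ => Nat.zero_le _) (Finset.mem_univ i)

/-- Quadratic phases. Let `H` be the shifts of `popular`; by `diff_two` and `lin_inv` (with `δ`
replaced by `δ ^ 2 / 2 ^ (d + 1)`) we have `nn (θ (2 E h b j)) ≤ 2 ^ d / (δ ^ 2 P)` for `h ∈ H`. If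
`P` is at least a constant times `δ ^ (-4)`, `rec_ring` for `θ (2 ·)` gives the result; otherwise take
`q = 1` (`nn ≤ 1 / 2`). -/
theorem weyl_two_aux : ∃ C : ℝ, 1 ≤ C ∧ ∀ (P : ℕ) (a c : ι → ℤ) (θ : R →+ ℝ) (γ : ι → ℝ)
    (γ₀ δ : ℝ), 1 ≤ P → Side a c P → 0 < δ → δ ≤ 1 →
    δ * (P : ℝ) ^ Fintype.card ι ≤ ‖sm a c fun x => θ (E b x ^ 2) + aff γ γ₀ x‖ →
    ∃ q : ℕ, 1 ≤ q ∧ (q : ℝ) ≤ C / δ ^ 8 ∧
      ∀ j, nn (θ ((q : R) * b j)) * (P : ℝ) ^ 2 ≤ C / δ ^ 8 := by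
  obtain ⟨U, hU⟩ := c2_U b
  set d := Fintype.card ι with hd
  set L : ℝ := (2 + 2 * (U : ℝ)) ^ d with hLdef
  have hL : 1 ≤ L := by
    apply one_le_pow₀
    have : (0 : ℝ) ≤ U := Nat.cast_nonneg U
    linarith
  have h2d : (1 : ℝ) ≤ 2 ^ d := one_le_pow₀ (by norm_num)
  set C1 : ℝ := 64 * 2 ^ d * L ^ 2 with hC1
  have hL2 : 1 ≤ L ^ 2 := one_le_pow₀ hL
  have hC11 : 64 ≤ C1 := by
    rw [hC1]
    nlinarith [mul_le_mul h2d hL2 (by norm_num) (by positivity)]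
  have hC12 : C1 ≤ C1 ^ 2 := by nlinarith
  refine ⟨C1 ^ 2, by nlinarith, ?_⟩
  intro P a c θ γ γ₀ δ hP hs hδ hδ1 hS
  have hPr : (1 : ℝ) ≤ P := by exact_mod_cast hP
  have hP0 : (0 : ℝ) < P := by linarith
  have hδ2 : 0 < δ ^ 2 := pow_pos hδ 2
  set σ : ℝ := δ ^ 2 / 2 with hσ
  set ρ : ℝ := σ / L with hρ
  set ε : ℝ := 2 ^ d / (δ ^ 2 * P) with hε
  have hσ0 : 0 < σ := by positivity
  have hσ1 : σ ≤ 1 := by
    have : δ ^ 2 ≤ 1 := pow_le_one₀ hδ.le hδ1
    rw [hσ]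
    linarith
  have hL0 : 0 < L := by linarith
  have hρ0 : 0 < ρ := div_pos hσ0 hL0
  have hε0 : 0 < ε := by positivity
  have hρeq : ρ = δ ^ 2 / (2 * L) := by
    rw [hρ, hσ]
    field_simp
  by_cases hbig : 8 / ρ ^ 2 ≤ P ∧ 32 * ε ≤ ρ
  · obtain ⟨hb1, hb2⟩ := hbig
    have hpop := popular hP hs hδ hS
    obtain ⟨q, hq1, hq2, hq3⟩ := rec_ring b U hU hP (θ.comp (AddMonoidHom.mulLeft (2 : R)))
      (Finset.filter_subset _ _) hσ0 hσ1 hρ hpop hb1 hε0.le hb2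
      (by
        intro k hk j
        have h1 := (Finset.mem_filter.1 hk).2
        obtain ⟨γ', h2⟩ := diff_two b θ γ γ₀ k
        rw [h2] at h1
        have h3 := lin_inv hP (side_inter hs k) (δ := δ ^ 2 / 2 ^ (d + 1)) (by positivity) h1 j
        have h4 : 1 / (2 * (δ ^ 2 / 2 ^ (d + 1)) * (P : ℝ)) = ε := by
          rw [hε]
          field_simp
          ring
        rw [h4] at h3
        have h5 : (θ.comp (AddMonoidHom.mulLeft (2 : R))) (E b k * b j) =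
            θ (2 * E b k * b j) := by
          rw [mul_assoc]
          rfl
        rw [h5]
        exact h3)
    refine ⟨2 * q, by omega, ?_, fun j => ?_⟩
    · have h1 : ((2 * q : ℕ) : ℝ) ≤ 2 * (2 / ρ) := by
        push_cast
        linarith
      have h2 : 2 * (2 / ρ) = (8 * L) / δ ^ 2 := by
        rw [hρeq]
        field_simp
        norm_num
      rw [h2] at h1
      refine h1.trans ((c2_mono (by positivity) hδ hδ1 (show 2 ≤ 8 by norm_num)).trans ?_)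
      refine div_le_div_of_nonneg_right ?_ (by positivity)
      have h3 : 8 * L ≤ C1 := by
        rw [hC1]
        nlinarith [mul_le_mul h2d (show L ≤ L ^ 2 by nlinarith) (by positivity) (by positivity)]
      linarith
    · have h1 := hq3 j
      have h5 : (θ.comp (AddMonoidHom.mulLeft (2 : R))) ((q : R) * b j) =
          θ (((2 * q : ℕ) : R) * b j) := by
        push_cast
        rw [mul_assoc]
        rfl
      rw [h5] at h1
      have h2 : 16 * ε / (ρ ^ 2 * P) * (P : ℝ) ^ 2 = (64 * 2 ^ d * L ^ 2) / δ ^ 6 := by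
        rw [hρeq, hε]
        field_simp
        ring
      have h3 := mul_le_mul_of_nonneg_right h1 (show 0 ≤ (P : ℝ) ^ 2 by positivity)
      rw [h2] at h3
      refine h3.trans ((c2_mono (by positivity) hδ hδ1 (show 6 ≤ 8 by norm_num)).trans ?_)
      exact div_le_div_of_nonneg_right hC12 (by positivity)
  · have hPs : (P : ℝ) ≤ C1 / δ ^ 4 := by
      rw [not_and_or, not_le, not_le] at hbig
      have e1 : δ ^ 4 = δ ^ 2 * δ ^ 2 := by ring
      rcases hbig with h1 | h1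
      · have h2 : 8 / ρ ^ 2 = (32 * L ^ 2) / δ ^ 4 := by
          rw [hρeq]
          field_simp
          norm_num
        rw [h2] at h1
        refine h1.le.trans (div_le_div_of_nonneg_right ?_ (by positivity))
        rw [hC1]
        nlinarith [mul_le_mul_of_nonneg_right h2d (show 0 ≤ L ^ 2 by positivity)]
      · rw [hρeq, hε] at h1
        rw [le_div_iff₀ (by positivity)]
        rw [div_lt_iff₀ (by positivity)] at h1
        have h2 : 32 * (2 ^ d / (δ ^ 2 * (P : ℝ))) * (2 * L) * (δ ^ 2 * P) =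
            64 * 2 ^ d * L := by
          field_simp
          norm_num
        have h3 := mul_lt_mul_of_pos_right h1 (show 0 < δ ^ 2 * (P : ℝ) by positivity)
        rw [h2] at h3
        have h4 : 64 * 2 ^ d * L ≤ C1 := by
          rw [hC1]
          have : L ≤ L ^ 2 := by nlinarith
          exact mul_le_mul_of_nonneg_left this (by positivity)
        have h5 : δ ^ 2 * (δ ^ 2 * (P : ℝ)) = P * δ ^ 4 := by ring
        rw [h5] at h3
        linarith
    refine ⟨1, le_refl _, ?_, fun j => ?_⟩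
    · rw [Nat.cast_one, le_div_iff₀ (by positivity), one_mul]
      have : δ ^ 8 ≤ 1 := pow_le_one₀ hδ.le hδ1
      nlinarith
    · have h1 := nn_le_half (θ (((1 : ℕ) : R) * b j))
      have h2 : (P : ℝ) ^ 2 ≤ (C1 / δ ^ 4) ^ 2 := pow_le_pow_left₀ hP0.le hPs 2
      have h3 : (C1 / δ ^ 4) ^ 2 = C1 ^ 2 / δ ^ 8 := by
        rw [div_pow]
        congr 1
        ring
      rw [h3] at h2
      have h4 := mul_le_mul_of_nonneg_right h1 (show 0 ≤ (P : ℝ) ^ 2 by positivity)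
      nlinarith [show 0 ≤ (P : ℝ) ^ 2 by positivity]

end Pool.Agent.SZW
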