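import Pool.Agent.Lib.SZW.C3
import Pool.Agent.Lib.SZ.Defs

/-!
# Bridge (M): the statement `Weyl F m` of module SZ
-/

set_option autoImplicit false

namespace Pool.Agent.SZW

open NumberField

variable {F : Type*} [Field F] [NumberField F]

/-- Every character is the reduction of a real additive map (choose real representatives on the
basis, `Module.Basis.constr` or a finite sum). -/
theorem exists_lift (χ : SZ.T F) : ∃ θ : 𝓞 F →+ ℝ, ∀ x, χ x = (θ x : UnitAddCircle) := by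
  choose r hr using fun i : SZ.Ix F => QuotientAddGroup.mk_surjective (χ (SZ.bas F i))
  let L : 𝓞 F →ₗ[ℤ] ℝ := (SZ.bas F).constr ℤ r
  have h1 : χ.toIntLinearMap =
      ((QuotientAddGroup.mk' (AddSubgroup.zmultiples (1 : ℝ))).toIntLinearMap).comp L := by
    apply (SZ.bas F).ext
    intro i
    rw [LinearMap.comp_apply]
    have h2 : L (SZ.bas F i) = r i := (SZ.bas F).constr_basis ℤ r i
    rw [h2]
    exact (hr i).symm
  refine ⟨L.toAddMonoidHom, fun x => ?_⟩
  exact congrArg (fun f : 𝓞 F →ₗ[ℤ] UnitAddCircle => f x) h1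

/-- `ev χ x = ee (θ x)` -/
theorem ev_eq {χ : SZ.T F} {θ : 𝓞 F →+ ℝ} (h : ∀ x, χ x = (θ x : UnitAddCircle)) (x : 𝓞 F) :
    SZ.ev χ x = ee (θ x) := by
  unfold SZ.ev ee
  rw [h, AddCircle.toCircle_apply_mk, Circle.coe_exp]
  congr 1
  push_cast
  ring

/-- the sum over `SZ.box` as a sum over a box of integer vectors -/
theorem sum_box (Y : ℕ) (f : 𝓞 F → ℂ) :
    ∑ x ∈ SZ.box F Y, f x = ∑ x ∈ box (fun _ : SZ.Ix F => (0 : ℤ)) (fun _ => (Y : ℤ)),
      f (E (SZ.bas F) x) := by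
  classical
  have hE : ∀ v : SZ.Ix F → ℕ, ∑ i, v i • SZ.bas F i = E (SZ.bas F) (fun i => (v i : ℤ)) := by
    intro v
    unfold E
    apply Finset.sum_congr rfl
    intro i _
    rw [natCast_zsmul]
  have hinj : ∀ x y : SZ.Ix F → ℤ, E (SZ.bas F) x = E (SZ.bas F) y → x = y := by
    intro x y hxy
    have h1 := (SZ.bas F).repr_sum_self x
    have h2 := (SZ.bas F).repr_sum_self y
    unfold E at hxy
    rw [← h1, ← h2, hxy]
  unfold SZ.box
  rw [Finset.sum_image]
  · apply Finset.sum_bij' (fun v _ => fun i => (v i : ℤ)) (fun x _ => fun i => (x i).toNat)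
    · intro v hv
      rw [Fintype.mem_piFinset] at hv
      unfold box
      rw [Fintype.mem_piFinset]
      intro i
      have := hv i
      rw [Finset.mem_range] at this
      rw [Finset.mem_Ico]
      dsimp only
      omega
    · intro x hx
      unfold box at hx
      rw [Fintype.mem_piFinset] at hx
      rw [Fintype.mem_piFinset]
      intro i
      have := hx i
      rw [Finset.mem_Ico] at this
      dsimp only at this
      rw [Finset.mem_range]
      omega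
    · intro v _
      funext i
      simp
    · intro x hx
      unfold box at hx
      rw [Fintype.mem_piFinset] at hx
      funext i
      have := hx i
      rw [Finset.mem_Ico] at this
      have h3 := Int.toNat_of_nonneg this.1
      exact h3
    · intro v _
      rw [hE]
  · intro v _ w _ hvw
    dsimp only at hvw
    rw [hE, hE] at hvw
    have h1 := hinj _ _ hvw
    funext i
    exact_mod_cast congrFun h1 i

/-- the norm of a multiple of a character (`UnitAddCircle.norm_eq`, `pi_norm_le_iff_of_nonneg`) -/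
theorem nT_le {χ : SZ.T F} {θ : 𝓞 F →+ ℝ} (h : ∀ x, χ x = (θ x : UnitAddCircle)) {q : ℕ} {t : ℝ}
    (ht : 0 ≤ t) (hq : ∀ j, nn (θ ((q : 𝓞 F) * SZ.bas F j)) ≤ t) : SZ.nT (q • χ) ≤ t := by
  unfold SZ.nT
  rw [pi_norm_le_iff_of_nonneg ht]
  intro j
  have h1 : (q • χ) (SZ.bas F j) = χ ((q : 𝓞 F) * SZ.bas F j) := by
    rw [← nsmul_eq_mul, map_nsmul]
    rfl
  rw [h1, h, UnitAddCircle.norm_eq]
  exact hq j

theorem bridge_aux {C s : ℝ} {a : ℕ} (hC : 0 ≤ C) (hs : 0 < s) (hs1 : s ≤ 1) {K : ℕ}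
    (hK : C ≤ K) (ha : a ≤ K) : C / s ^ a ≤ K * (1 / s) ^ K := by
  have h1 : 1 ≤ 1 / s := by rwa [le_div_iff₀ hs, one_mul]
  have h2 : C / s ^ a = C * (1 / s) ^ a := by
    rw [one_div, inv_pow]
    rfl
  rw [h2]
  exact mul_le_mul hK (pow_le_pow_right₀ h1 ha) (by positivity) (hC.trans hK)

theorem bridge_main {C : ℝ} {a m : ℕ} (hC1 : 1 ≤ C)
    (h : ∀ (P : ℕ) (u v : SZ.Ix F → ℤ) (θ : 𝓞 F →+ ℝ) (δ : ℝ), 1 ≤ P → Side u v P → 0 < δ →
      δ ≤ 1 → δ * (P : ℝ) ^ Fintype.card (SZ.Ix F) ≤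
        ‖sm u v fun x => θ (E (SZ.bas F) x ^ m)‖ →
      ∃ q : ℕ, 1 ≤ q ∧ (q : ℝ) ≤ C / δ ^ a ∧
        ∀ j, nn (θ ((q : 𝓞 F) * SZ.bas F j)) * (P : ℝ) ^ m ≤ C / δ ^ a) : SZ.Weyl F m := by
  refine ⟨max ⌈C⌉₊ (max a 1), (le_max_right a 1).trans (le_max_right _ _), ?_⟩
  intro Y hY χ s hs hs1 hsum
  obtain ⟨θ, hθ⟩ := exists_lift χ
  set K : ℕ := max ⌈C⌉₊ (max a 1) with hK
  have hKC : C ≤ K := (Nat.le_ceil C).trans (by exact_mod_cast le_max_left _ _)
  have hKa : a ≤ K := (le_max_left a 1).trans (le_max_right _ _)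
  have hb := bridge_aux (by linarith : (0 : ℝ) ≤ C) hs hs1 hKC hKa
  have hside : Side (fun _ : SZ.Ix F => (0 : ℤ)) (fun _ => (Y : ℤ)) Y := by
    intro i
    simp
  rw [sum_box] at hsum
  have hsum' : s * (Y : ℝ) ^ Fintype.card (SZ.Ix F) ≤
      ‖sm (fun _ : SZ.Ix F => (0 : ℤ)) (fun _ => (Y : ℤ)) fun x => θ (E (SZ.bas F) x ^ m)‖ := by
    refine hsum.trans (le_of_eq ?_)
    unfold sm
    congr 1
    apply Finset.sum_congr rfl
    intro x _
    exact ev_eq hθ _
  obtain ⟨q, hq1, hq2, hq3⟩ := h Y _ _ θ s hY hside hs hs1 hsum'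
  have hY0 : (0 : ℝ) < (Y : ℝ) ^ m := by
    have : (0 : ℝ) < Y := by exact_mod_cast hY
    positivity
  refine ⟨q, hq1, hq2.trans hb, ?_⟩
  apply nT_le hθ (by positivity)
  intro j
  rw [le_div_iff₀ hY0]
  exact (hq3 j).trans hb

theorem weyl_field (m : ℕ) (hm : m = 2 ∨ m = 3) : SZ.Weyl F m := by
  rcases hm with rfl | rfl
  · obtain ⟨C, hC1, hC⟩ := weyl_two_aux (SZ.bas F)
    apply bridge_main (a := 8) hC1
    intro P u v θ δ hP hside hδ hδ1 hs
    apply hC P u v θ 0 0 δ hP hside hδ hδ1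
    refine hs.trans (le_of_eq ?_)
    congr 2
    funext x
    simp [aff]
  · obtain ⟨C, hC1, hC⟩ := weyl_three_aux (SZ.bas F)
    apply bridge_main (a := 200) hC1
    intro P u v θ δ hP hside hδ hδ1 hs
    apply hC P u v θ 0 0 0 δ hP hside hδ hδ1
    refine hs.trans (le_of_eq ?_)
    congr 2
    funext x
    simp [aff]

end Pool.Agent.SZW
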