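import Pool.Agent.Lib.SZW.C2

/-!
# C3 (M): cubic phases
-/

set_option autoImplicit false

namespace Pool.Agent.SZW

variable {ι : Type*} [Fintype ι] [DecidableEq ι] {R : Type*} [CommRing R]
  (b : Module.Basis ι ℤ R)

/-- Pigeonhole: if every `h ∈ H` has a number `q h` with `1 ≤ q h ≤ M`, then some `q` belongs to at
least `|H| / M` of them. -/
theorem exists_common {H : Finset (ι → ℤ)} {M : ℝ} (hM : 1 ≤ M) (q : (ι → ℤ) → ℕ)
    (hq : ∀ h ∈ H, 1 ≤ q h ∧ (q h : ℝ) ≤ M) :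
    ∃ q₀ : ℕ, 1 ≤ q₀ ∧ (q₀ : ℝ) ≤ M ∧ (H.card : ℝ) / M ≤ ((H.filter fun h => q h = q₀).card : ℝ) := by
  by_contra hcon
  push Not at hcon
  have hM0 : 0 < M := by linarith
  have h1 : H.card = ∑ k ∈ Finset.Icc 1 ⌊M⌋₊, (H.filter fun h => q h = k).card := by
    refine Finset.card_eq_sum_card_fiberwise ?_
    intro h hh
    obtain ⟨h2, h3⟩ := hq h hh
    rw [Finset.mem_coe, Finset.mem_Icc]
    exact ⟨h2, Nat.le_floor h3⟩
  have hne : (Finset.Icc 1 ⌊M⌋₊).Nonempty := by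
    rw [Finset.nonempty_Icc]
    exact Nat.le_floor (by exact_mod_cast hM)
  have h2 : (H.card : ℝ) < ∑ _k ∈ Finset.Icc 1 ⌊M⌋₊, (H.card : ℝ) / M := by
    rw [h1]
    push_cast
    rw [← Nat.cast_sum, ← h1]
    rw [h1]
    push_cast
    refine Finset.sum_lt_sum_of_nonempty hne ?_
    intro k hk
    rw [Finset.mem_Icc] at hk
    have h3 := hcon k hk.1 ((Nat.cast_le.2 hk.2).trans (Nat.floor_le hM0.le))
    rw [h1] at h3
    push_cast at h3
    exact h3
  rw [Finset.sum_const, Nat.card_Icc, Nat.add_sub_cancel, nsmul_eq_mul] at h2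
  have h3 : (⌊M⌋₊ : ℝ) * ((H.card : ℝ) / M) ≤ M * ((H.card : ℝ) / M) :=
    mul_le_mul_of_nonneg_right (Nat.floor_le hM0.le) (by positivity)
  rw [mul_div_cancel₀ _ hM0.ne'] at h3
  linarith

/-- Cubic phases. Let `H` be the shifts of `popular`; by `diff_three` and `weyl_two_aux` every `h ∈ H`
has a number `q h ≤ M = C / δ' ^ 8` (`δ' = δ ^ 2 / 2 ^ (d + 1)`) with
`nn (θ (3 E h q b j)) P ^ 2 ≤ M`; take the most popular value `q₀` (`exists_common`) and apply
`rec_ring` to `θ (3 q₀ ·)`. If `P` is less than a constant times `δ ^ (-36)`, take `q = 1`. -/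
theorem weyl_three_aux : ∃ C : ℝ, 1 ≤ C ∧ ∀ (P : ℕ) (a c : ι → ℤ) (θ θ₂ : R →+ ℝ) (γ : ι → ℝ)
    (γ₀ δ : ℝ), 1 ≤ P → Side a c P → 0 < δ → δ ≤ 1 →
    δ * (P : ℝ) ^ Fintype.card ι ≤
      ‖sm a c fun x => θ (E b x ^ 3) + θ₂ (E b x ^ 2) + aff γ γ₀ x‖ →
    ∃ q : ℕ, 1 ≤ q ∧ (q : ℝ) ≤ C / δ ^ 200 ∧
      ∀ j, nn (θ ((q : R) * b j)) * (P : ℝ) ^ 3 ≤ C / δ ^ 200 := by
  obtain ⟨U, hU⟩ := c2_U b
  obtain ⟨C2, hC2, hW⟩ := weyl_two_aux b
  set d := Fintype.card ι with hd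
  set L : ℝ := (2 + 2 * (U : ℝ)) ^ d with hLdef
  have hL : 1 ≤ L := by
    apply one_le_pow₀
    have : (0 : ℝ) ≤ U := Nat.cast_nonneg U
    linarith
  set D : ℝ := (2 ^ (d + 1)) ^ 8 with hD
  have hD1 : 1 ≤ D := one_le_pow₀ (one_le_pow₀ (by norm_num))
  set C3 : ℝ := C2 * D with hC3
  have hC31 : 1 ≤ C3 := by
    rw [hC3]
    exact one_le_mul_of_one_le_of_one_le hC2 hD1
  have hL0 : 0 < L := by linarith
  have hC30 : 0 < C3 := by linarith
  have hL2 : 1 ≤ L ^ 2 := one_le_pow₀ hL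
  have hC32 : 1 ≤ C3 ^ 2 := one_le_pow₀ hC31
  set C1 : ℝ := 64 * L ^ 2 * C3 ^ 2 with hC1
  have hLC : 1 ≤ L ^ 2 * C3 ^ 2 := one_le_mul_of_one_le_of_one_le hL2 hC32
  have hC11 : 64 ≤ C1 := by
    rw [hC1, mul_assoc]
    linarith
  have hLL : L ≤ L ^ 2 := by
    rw [sq]
    exact le_mul_of_one_le_left hL0.le hL
  have hC1sq : C1 ^ 2 ≤ C1 ^ 3 := pow_le_pow_right₀ (by linarith) (by norm_num)
  have hC1one : C1 ≤ C1 ^ 2 := by
    rw [sq]
    exact le_mul_of_one_le_left (by linarith) (by linarith)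
  refine ⟨C1 ^ 3, by linarith, ?_⟩
  intro P a c θ θ₂ γ γ₀ δ hP hs hδ hδ1 hS
  have hPr : (1 : ℝ) ≤ P := by exact_mod_cast hP
  have hP0 : (0 : ℝ) < P := by linarith
  have hδ2 : 0 < δ ^ 2 := pow_pos hδ 2
  have hδ16 : 0 < δ ^ 16 := pow_pos hδ 16
  set M : ℝ := C3 / δ ^ 16 with hM
  have hM1 : 1 ≤ M := by
    rw [hM, le_div_iff₀ hδ16, one_mul]
    exact (pow_le_one₀ hδ.le hδ1).trans hC31
  have hM0 : 0 < M := by linarith
  set σ : ℝ := δ ^ 2 / 2 / M with hσ
  set ρ : ℝ := σ / L with hρ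
  set ε : ℝ := M / (P : ℝ) ^ 2 with hε
  have hσ0 : 0 < σ := by positivity
  have hσ1 : σ ≤ 1 := by
    have h1 : δ ^ 2 ≤ 1 := pow_le_one₀ hδ.le hδ1
    rw [hσ, div_le_one hM0]
    linarith
  have hρ0 : 0 < ρ := div_pos hσ0 hL0
  have hε0 : 0 < ε := by positivity
  have hρeq : ρ = δ ^ 18 / (2 * L * C3) := by
    rw [hρ, hσ, hM]
    field_simp
  -- the popular shifts
  have hpop := popular hP hs hδ hS
  set H := (shifts ι P).filter fun k =>
      δ ^ 2 / 2 ^ (Fintype.card ι + 1) * (P : ℝ) ^ Fintype.card ι ≤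
      ‖sm (fun i => max (a i) (a i - k i)) (fun i => min (c i) (c i - k i))
        (fun x => (θ (E b (x + k) ^ 3) + θ₂ (E b (x + k) ^ 2) + aff γ γ₀ (x + k)) -
          (θ (E b x ^ 3) + θ₂ (E b x ^ 2) + aff γ γ₀ x))‖ with hH
  have hex : ∀ k : ι → ℤ, ∃ q : ℕ, k ∈ H → 1 ≤ q ∧ (q : ℝ) ≤ M ∧
      ∀ j, nn (θ (3 * (q : R) * (E b k * b j))) * (P : ℝ) ^ 2 ≤ M := by
    intro k
    by_cases hk : k ∈ H
    · have h1 := (Finset.mem_filter.1 hk).2
      obtain ⟨γ', γ₀', h2⟩ := diff_three b θ θ₂ γ γ₀ k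
      rw [h2] at h1
      have h0 : δ ^ 2 / 2 ^ (d + 1) ≤ 1 := by
        rw [div_le_one (by positivity)]
        have e1 : δ ^ 2 ≤ 1 := pow_le_one₀ hδ.le hδ1
        have e2 : (1 : ℝ) ≤ 2 ^ (d + 1) := one_le_pow₀ (by norm_num)
        linarith
      obtain ⟨q, hq1, hq2, hq3⟩ := hW P _ _ _ _ _ (δ ^ 2 / 2 ^ (d + 1)) hP (side_inter hs k)
        (by positivity) h0 h1
      have h4 : C2 / (δ ^ 2 / 2 ^ (d + 1)) ^ 8 = M := by
        rw [hM, hC3, hD]
        field_simp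
      rw [h4] at hq2 hq3
      refine ⟨q, fun _ => ⟨hq1, hq2, fun j => ?_⟩⟩
      have h5 := hq3 j
      have h6 : (θ.comp (AddMonoidHom.mulLeft (3 * E b k))) ((q : R) * b j) =
          θ (3 * (q : R) * (E b k * b j)) := by
        change θ (3 * E b k * ((q : R) * b j)) = _
        congr 1
        ring
      rw [h6] at h5
      exact h5
    · exact ⟨0, fun h => absurd h hk⟩
  choose q hq using hex
  obtain ⟨q₀, hq01, hq0M, hq0c⟩ := exists_common hM1 q (fun k hk => ⟨(hq k hk).1, (hq k hk).2.1⟩)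
  by_cases hbig : 8 / ρ ^ 2 ≤ P ∧ 32 * ε ≤ ρ
  · obtain ⟨hb1, hb2⟩ := hbig
    have hcard : σ * (P : ℝ) ^ Fintype.card ι ≤ ((H.filter fun h => q h = q₀).card : ℝ) := by
      refine le_trans ?_ hq0c
      rw [le_div_iff₀ hM0]
      refine le_trans (le_of_eq ?_) hpop
      rw [hσ]
      field_simp
    obtain ⟨r, hr1, hr2, hr3⟩ := rec_ring b U hU hP
      (θ.comp (AddMonoidHom.mulLeft (3 * (q₀ : R))))
      ((Finset.filter_subset _ _).trans (Finset.filter_subset _ _)) hσ0 hσ1 hρ hcard hb1 hε0.le hb2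
      (by
        intro k hk j
        obtain ⟨hk1, hk2⟩ := Finset.mem_filter.1 hk
        have h1 := (hq k hk1).2.2 j
        rw [hk2] at h1
        rw [hε, le_div_iff₀ (by positivity)]
        exact h1)
    refine ⟨3 * q₀ * r, Nat.mul_pos (Nat.mul_pos (by norm_num) hq01) hr1, ?_, fun j => ?_⟩
    · have h1 : ((3 * q₀ * r : ℕ) : ℝ) ≤ 3 * M * (2 / ρ) := by
        push_cast
        exact mul_le_mul (by linarith) hr2 (by positivity) (by positivity)
      have h2 : 3 * M * (2 / ρ) = (12 * L * C3 ^ 2) / δ ^ 34 := by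
        rw [hρeq, hM]
        field_simp
        norm_num
      rw [h2] at h1
      refine h1.trans ((c2_mono (by positivity) hδ hδ1 (show 34 ≤ 200 by norm_num)).trans ?_)
      refine div_le_div_of_nonneg_right ?_ (by positivity)
      have h3 : 12 * L * C3 ^ 2 ≤ C1 := by
        rw [hC1]
        have e2 : 12 * L ≤ 64 * L ^ 2 := by linarith
        exact mul_le_mul_of_nonneg_right e2 (by positivity)
      linarith
    · have h1 := hr3 j
      have h5 : (θ.comp (AddMonoidHom.mulLeft (3 * (q₀ : R)))) ((r : R) * b j) =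
          θ (((3 * q₀ * r : ℕ) : R) * b j) := by
        change θ (3 * (q₀ : R) * ((r : R) * b j)) = _
        congr 1
        push_cast
        ring
      rw [h5] at h1
      have h2 : 16 * ε / (ρ ^ 2 * P) * (P : ℝ) ^ 3 = (64 * L ^ 2 * C3 ^ 3) / δ ^ 52 := by
        rw [hρeq, hε, hM]
        field_simp
        ring
      have h3 := mul_le_mul_of_nonneg_right h1 (show 0 ≤ (P : ℝ) ^ 3 by positivity)
      rw [h2] at h3
      refine h3.trans ((c2_mono (by positivity) hδ hδ1 (show 52 ≤ 200 by norm_num)).trans ?_)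
      refine div_le_div_of_nonneg_right ?_ (by positivity)
      have h4 : 64 * L ^ 2 * C3 ^ 3 ≤ C1 ^ 2 := by
        have e1 : C1 ^ 2 = (64 * L ^ 2 * C3 ^ 3) * (64 * L ^ 2 * C3) := by
          rw [hC1]
          ring
        rw [e1]
        have e2 : 1 ≤ 64 * L ^ 2 * C3 := by
          have := one_le_mul_of_one_le_of_one_le hL2 hC31
          rw [mul_assoc]
          linarith
        have e3 : 0 ≤ 64 * L ^ 2 * C3 ^ 3 := by positivity
        exact le_mul_of_one_le_right e3 e2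
      linarith
  · have hPs : (P : ℝ) ≤ C1 / δ ^ 36 := by
      rw [not_and_or, not_le, not_le] at hbig
      rcases hbig with h1 | h1
      · have h2 : 8 / ρ ^ 2 = (32 * L ^ 2 * C3 ^ 2) / δ ^ 36 := by
          rw [hρeq]
          field_simp
          norm_num
        rw [h2] at h1
        refine h1.le.trans (div_le_div_of_nonneg_right ?_ (by positivity))
        rw [hC1, mul_assoc, mul_assoc]
        linarith
      · have h2 : ρ * (P : ℝ) ^ 2 < 32 * M := by
          have h3 := mul_lt_mul_of_pos_right h1 (show 0 < (P : ℝ) ^ 2 by positivity)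
          have h4 : 32 * ε * (P : ℝ) ^ 2 = 32 * M := by
            rw [hε]
            field_simp
          linarith
        have h5 : (P : ℝ) ^ 2 < (64 * L * C3 ^ 2) / δ ^ 34 := by
          have h6 : 32 * M / ρ = (64 * L * C3 ^ 2) / δ ^ 34 := by
            rw [hρeq, hM]
            field_simp
            norm_num
          rw [← h6, lt_div_iff₀ hρ0]
          linarith
        have h7 : (P : ℝ) ≤ (P : ℝ) ^ 2 := by
          rw [sq]
          exact le_mul_of_one_le_left hP0.le hPr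
        refine (h7.trans h5.le).trans
          ((c2_mono (by positivity) hδ hδ1 (show 34 ≤ 36 by norm_num)).trans ?_)
        refine div_le_div_of_nonneg_right ?_ (by positivity)
        rw [hC1]
        have e2 : 64 * L ≤ 64 * L ^ 2 := by linarith
        exact mul_le_mul_of_nonneg_right e2 (by positivity)
    refine ⟨1, le_refl _, ?_, fun j => ?_⟩
    · rw [Nat.cast_one, le_div_iff₀ (by positivity), one_mul]
      have : δ ^ 200 ≤ 1 := pow_le_one₀ hδ.le hδ1
      linarith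
    · have h1 := nn_le_half (θ (((1 : ℕ) : R) * b j))
      have h2 : (P : ℝ) ^ 3 ≤ (C1 / δ ^ 36) ^ 3 := pow_le_pow_left₀ hP0.le hPs 3
      have h3 : (C1 / δ ^ 36) ^ 3 = C1 ^ 3 / δ ^ 108 := by
        rw [div_pow]
        congr 1
        ring
      rw [h3] at h2
      have h4 := mul_le_mul_of_nonneg_right h1 (show 0 ≤ (P : ℝ) ^ 3 by positivity)
      have h5 := c2_mono (show 0 ≤ C1 ^ 3 by positivity) hδ hδ1 (show 108 ≤ 200 by norm_num)
      have h6 : 0 ≤ (P : ℝ) ^ 3 := by positivity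
      linarith

end Pool.Agent.SZW
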