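import Mathlib

/-!
# Weyl sums over a commutative ring with a finite basis over the integers: definitions

`R` is a commutative ring with a `ℤ`-basis `b : Basis ι ℤ R`, `ι` finite, `d = card ι`. For
`x : ι → ℤ` let `E b x = ∑ x i • b i`. Boxes are products of intervals `a i ≤ x i < c i`. The phases
are values of additive maps `θ : R →+ ℝ`, modulo `1`; `nn t` is the distance from `t` to the nearest
integer, `ee t = exp (2 π i t)`.
-/

set_option autoImplicit false

namespace Pool.Agent.SZW

/-- `exp (2 π i t)` -/
noncomputable def ee (t : ℝ) : ℂ := Complex.exp (2 * Real.pi * t * Complex.I)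

/-- the distance from `t` to the nearest integer -/
noncomputable def nn (t : ℝ) : ℝ := |t - round t|

variable {ι : Type*} [Fintype ι] [DecidableEq ι]

/-- the box `a i ≤ x i < c i` -/
noncomputable def box (a c : ι → ℤ) : Finset (ι → ℤ) := Fintype.piFinset fun i => Finset.Ico (a i) (c i)

/-- the sides of the box are at most `P` -/
def Side (a c : ι → ℤ) (P : ℕ) : Prop := ∀ i, c i - a i ≤ P

/-- the element with coordinates `x` -/
noncomputable def E {R : Type*} [CommRing R] (b : Module.Basis ι ℤ R) (x : ι → ℤ) : R := ∑ i, x i • b i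

/-- the value of the affine form with coefficients `γ` and constant term `γ₀` -/
def aff (γ : ι → ℝ) (γ₀ : ℝ) (x : ι → ℤ) : ℝ := ∑ i, (x i : ℝ) * γ i + γ₀

/-- the exponential sum with phase `φ` over a box -/
noncomputable def sm (a c : ι → ℤ) (φ : (ι → ℤ) → ℝ) : ℂ := ∑ x ∈ box a c, ee (φ x)

end Pool.Agent.SZW
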