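import Pool.Agent.Lib.SZW.C3

/-!
# Main (S/M): Weyl's inequality over a ring
-/

set_option autoImplicit false

namespace Pool.Agent.SZW

variable {ι : Type*} [Fintype ι] [DecidableEq ι] {R : Type*} [CommRing R]
  (b : Module.Basis ι ℤ R)

theorem main_aux (m : ℕ) (hm : m = 2 ∨ m = 3) : ∃ C : ℝ, 1 ≤ C ∧ ∀ (P : ℕ) (a c : ι → ℤ) (θ : R →+ ℝ) (δ : ℝ),
    1 ≤ P → Side a c P → 0 < δ → δ ≤ 1 →
    δ * (P : ℝ) ^ Fintype.card ι ≤ ‖sm a c fun x => θ (E b x ^ m)‖ →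
    ∃ q : ℕ, 1 ≤ q ∧ (q : ℝ) ≤ C / δ ^ 200 ∧
      ∀ j, nn (θ ((q : R) * b j)) * (P : ℝ) ^ m ≤ C / δ ^ 200 := by
  have haff : ∀ x : ι → ℤ, aff (fun _ => (0 : ℝ)) 0 x = 0 := by
    intro x
    simp [aff]
  rcases hm with rfl | rfl
  · obtain ⟨C, hC1, hC⟩ := weyl_two_aux b
    refine ⟨C, hC1, fun P a c θ δ hP hS hδ hδ1 h => ?_⟩
    have h' : δ * (P : ℝ) ^ Fintype.card ι ≤ ‖sm a c fun x => θ (E b x ^ 2) + aff (fun _ => (0 : ℝ)) 0 x‖ := by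
      simpa only [haff, add_zero] using h
    obtain ⟨q, h1, h2, h3⟩ := hC P a c θ (fun _ => 0) 0 δ hP hS hδ hδ1 h'
    have h4 : C / δ ^ 8 ≤ C / δ ^ 200 := by
      refine div_le_div_of_nonneg_left (by linarith) (by positivity) ?_
      exact pow_le_pow_of_le_one hδ.le hδ1 (by norm_num)
    exact ⟨q, h1, h2.trans h4, fun j => (h3 j).trans h4⟩
  · obtain ⟨C, hC1, hC⟩ := weyl_three_aux b
    refine ⟨C, hC1, fun P a c θ δ hP hS hδ hδ1 h => ?_⟩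
    have h' : δ * (P : ℝ) ^ Fintype.card ι ≤
        ‖sm a c fun x => θ (E b x ^ 3) + (0 : R →+ ℝ) (E b x ^ 2) + aff (fun _ => (0 : ℝ)) 0 x‖ := by
      simpa only [haff, add_zero, AddMonoidHom.zero_apply] using h
    exact hC P a c θ 0 (fun _ => 0) 0 δ hP hS hδ hδ1 h'

/-- The direct form, for `m = 2` and `m = 3`. Let `δ = ‖S‖ / P ^ d` (at most `1` by `sm_le`); if
`δ > 0`, the inverse theorem gives `q` with `q ≤ C / δ ^ 200` and `nn .. P ^ m ≤ C / δ ^ 200`; so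
`K ≤ C / δ ^ 200` (otherwise `q ≤ K` contradicts the hypothesis), and
`δ ≤ (C / K) ^ (1 / 200)`. -/
theorem weyl (m : ℕ) (hm : m = 2 ∨ m = 3) : ∃ C κ : ℝ, 1 ≤ C ∧ 0 < κ ∧
    ∀ (P : ℕ) (a c : ι → ℤ) (θ : R →+ ℝ) (K : ℝ), 1 ≤ P → Side a c P → 1 ≤ K →
    (∀ q : ℕ, 1 ≤ q → (q : ℝ) ≤ K → ∃ j, K < nn (θ ((q : R) * b j)) * (P : ℝ) ^ m) →
    ‖sm a c fun x => θ (E b x ^ m)‖ ≤ C * K ^ (-κ) * (P : ℝ) ^ Fintype.card ι := by
  obtain ⟨C, hC1, hC⟩ := main_aux b m hm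
  refine ⟨C, 1 / 200, hC1, by norm_num, ?_⟩
  intro P a c θ K hP hS hK hq
  have hP0 : (0 : ℝ) < P := by exact_mod_cast hP
  set d := Fintype.card ι
  have hPd : (0 : ℝ) < (P : ℝ) ^ d := by positivity
  set S : ℝ := ‖sm a c fun x => θ (E b x ^ m)‖ with hSdef
  have hS0 : 0 ≤ S := norm_nonneg _
  have hK0 : 0 < K := by linarith
  rcases hS0.eq_or_lt with h0 | h0
  · rw [← h0]
    have := Real.rpow_nonneg hK0.le (-(1 / 200 : ℝ))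
    positivity
  set δ : ℝ := S / (P : ℝ) ^ d with hδ
  have hδ0 : 0 < δ := div_pos h0 hPd
  have hδ1 : δ ≤ 1 := by
    rw [hδ, div_le_one hPd]
    exact sm_le hS _
  have hδS : δ * (P : ℝ) ^ d = S := div_mul_cancel₀ _ hPd.ne'
  obtain ⟨q, hq1, hq2, hq3⟩ := hC P a c θ δ hP hS hδ0 hδ1 hδS.le
  have hlt : K < C / δ ^ 200 := by
    by_contra hcon
    push Not at hcon
    obtain ⟨j, hj⟩ := hq q hq1 (hq2.trans hcon)
    linarith [hq3 j]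
  have h1 : δ ^ 200 * K < C := by
    rw [lt_div_iff₀ (by positivity)] at hlt
    linarith
  have h2 : (δ * K ^ (1 / 200 : ℝ)) ^ 200 = δ ^ 200 * K := by
    rw [mul_pow, ← Real.rpow_natCast (K ^ (1 / 200 : ℝ)) 200, ← Real.rpow_mul hK0.le]
    norm_num
  have h3 : δ * K ^ (1 / 200 : ℝ) < C := by
    have h4 : (δ * K ^ (1 / 200 : ℝ)) ^ 200 < C ^ 200 := by
      rw [h2]
      refine h1.trans_le ?_
      calc C = C ^ 1 := (pow_one C).symm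
        _ ≤ C ^ 200 := pow_le_pow_right₀ hC1 (by norm_num)
    exact lt_of_pow_lt_pow_left₀ 200 (by linarith) h4
  have h5 : 0 < K ^ (1 / 200 : ℝ) := Real.rpow_pos_of_pos hK0 _
  have h6 : δ ≤ C * K ^ (-(1 / 200 : ℝ)) := by
    rw [Real.rpow_neg hK0.le, ← div_eq_mul_inv, le_div_iff₀ h5]
    exact h3.le
  calc S = δ * (P : ℝ) ^ d := hδS.symm
    _ ≤ C * K ^ (-(1 / 200 : ℝ)) * (P : ℝ) ^ d := mul_le_mul_of_nonneg_right h6 hPd.le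

end Pool.Agent.SZW
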